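import Pool.Agent.Helper51_Max.Core

/-!
# Sharp variation bound for equal minima: the geometric lemmas

`IsMax N g M` says that `M` is the centred maximal function of `g ≥ 0` on the path `{0, …, N}`.
`Tops N g P` says that the finite set `P` meets every local maximum of `g`.
-/

set_option autoImplicit false

open Finset

namespace Pool.Agent.Helper37_EM

open Pool.Agent.Helper51_Max

/-- every point `x` and every interval around `x` outside which `g` is immediately smaller than
`g x` contains a point of `P` at which `g` is at least `g x` -/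
def Tops (N : ℕ) (g : ℕ → ℝ) (P : Finset ℕ) : Prop :=
  ∀ lo x hi : ℕ, lo ≤ x → x ≤ hi → hi ≤ N → (lo = 0 ∨ g (lo - 1) < g x) →
    (hi = N ∨ g (hi + 1) < g x) → ∃ t ∈ P, lo ≤ t ∧ t ≤ hi ∧ g x ≤ g t

variable {N : ℕ} {g M : ℕ → ℝ} {P : Finset ℕ}

lemma Tops.between (hP : Tops N g P) {a x b : ℕ} (hax : a < x) (hxb : x < b) (hb : b ≤ N)
    (ha : g a < g x) (hgb : g b < g x) : ∃ t ∈ P, a < t ∧ t < b ∧ g x ≤ g t := by
  obtain ⟨t, ht, h1, h2, h3⟩ := hP (a + 1) x (b - 1) (by omega) (by omega) (by omega)
    (Or.inr (by simpa using ha)) (Or.inr (by rwa [show b - 1 + 1 = b by omega]))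
  exact ⟨t, ht, by omega, by omega, h3⟩

lemma Tops.left (hP : Tops N g P) {x b : ℕ} (hxb : x < b) (hb : b ≤ N)
    (hgb : g b < g x) : ∃ t ∈ P, t < b ∧ g x ≤ g t := by
  obtain ⟨t, ht, h1, h2, h3⟩ := hP 0 x (b - 1) (by omega) (by omega) (by omega)
    (Or.inl rfl) (Or.inr (by rwa [show b - 1 + 1 = b by omega]))
  exact ⟨t, ht, by omega, h3⟩

lemma Tops.right (hP : Tops N g P) {a x : ℕ} (hax : a < x) (hx : x ≤ N)
    (ha : g a < g x) : ∃ t ∈ P, a < t ∧ t ≤ N ∧ g x ≤ g t := by
  obtain ⟨t, ht, h1, h2, h3⟩ := hP (a + 1) x N (by omega) (by omega) le_rfl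
    (Or.inr (by simpa using ha)) (Or.inl rfl)
  exact ⟨t, ht, by omega, h2, h3⟩

lemma Tops.all (hP : Tops N g P) {x : ℕ} (hx : x ≤ N) : ∃ t ∈ P, t ≤ N ∧ g x ≤ g t := by
  obtain ⟨t, ht, h1, h2, h3⟩ := hP 0 x N (by omega) hx le_rfl (Or.inl rfl) (Or.inl rfl)
  exact ⟨t, ht, h2, h3⟩

lemma g_le (h : IsMax N g M) {v : ℕ} (hv : v ≤ N) : g v ≤ M v := by
  have h1 := h.le v hv 0
  have h2 : I N v 0 = {v} := by
    ext i; simp only [I, mem_Icc, mem_singleton]; omega
  rw [h2] at h1
  simpa using h1

lemma card_pos' {v : ℕ} (r : ℕ) (hv : v ≤ N) : (0 : ℝ) < ((I N v r).card : ℝ) := by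
  exact_mod_cast card_I_pos r hv

/-- if `J` is an interval of the form `I N x ρ` contained in `I N v r` and the values of `g` on the
difference are at most `M x`, then `M v ≤ M x` for an optimal ball `I N v r` -/
lemma le_of_subset (h : IsMax N g M) {v x r ρ : ℕ} (hv : v ≤ N) (hx : x ≤ N)
    (hr : M v * ((I N v r).card : ℝ) = ∑ i ∈ I N v r, g i)
    (hsub : I N x ρ ⊆ I N v r) (hd : ∀ i ∈ I N v r \ I N x ρ, g i ≤ M x) : M v ≤ M x := by
  have h1 := h.le x hx ρ
  have h2 : ∑ i ∈ I N v r \ I N x ρ, g i ≤ M x * ((I N v r \ I N x ρ).card : ℝ) := by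
    have := sum_le_sum hd
    rw [sum_const, nsmul_eq_mul, mul_comm] at this
    exact this
  have h3 := sum_sdiff (f := g) hsub
  have h4 : ((I N v r \ I N x ρ).card : ℝ) + ((I N x ρ).card : ℝ) = ((I N v r).card : ℝ) := by
    exact_mod_cast card_sdiff_add_card_eq_card hsub
  have h5 := card_pos' (N := N) r hv
  have h6 : M v * ((I N v r).card : ℝ) ≤ M x * ((I N v r).card : ℝ) := by
    rw [hr, ← h3, ← h4]; nlinarith
  exact le_of_mul_le_mul_right h6 h5

/-- a point which is lower than a point on its right has a higher local maximum of `g` on its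
right -/
lemma exists_right (h : IsMax N g M) (hP : Tops N g P) {x v : ℕ} (hxv : x < v) (hv : v ≤ N)
    (hlt : M x < M v) : ∃ t ∈ P, x < t ∧ t ≤ N ∧ M x < g t := by
  by_contra hcon
  push Not at hcon
  have hg : ∀ i, x < i → i ≤ N → g i ≤ M x := by
    intro i hi hiN
    by_contra h1
    push Not at h1
    have h2 := g_le h (show x ≤ N by omega)
    obtain ⟨t, ht, h3, h4, h5⟩ := hP.right hi hiN (by linarith)
    have := hcon t ht h3 h4
    linarith
  obtain ⟨r, hr⟩ := h.attained v hv
  have hkey : M v ≤ M x := by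
    rcases Nat.lt_or_ge x (v - r) with h1 | h1
    · have h5 := card_pos' (N := N) r hv
      have h6 : ∑ i ∈ I N v r, g i ≤ M x * ((I N v r).card : ℝ) := by
        have := sum_le_sum (s := I N v r) (f := g) (g := fun _ => M x) (fun i hi => by
          simp only [I, mem_Icc] at hi
          exact hg i (by omega) (by omega))
        rw [sum_const, nsmul_eq_mul, mul_comm] at this
        exact this
      rw [← hr] at h6
      exact le_of_mul_le_mul_right h6 h5
    · refine le_of_subset h hv (by omega) (ρ := x - (v - r)) hr ?_ ?_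
      · intro i; simp only [I, mem_Icc]; omega
      · intro i hi
        simp only [I, mem_sdiff, mem_Icc] at hi
        exact hg i (by omega) (by omega)
  linarith

lemma exists_left (h : IsMax N g M) (hP : Tops N g P) {x v : ℕ} (hvx : v < x) (hx : x ≤ N)
    (hlt : M x < M v) : ∃ t ∈ P, t < x ∧ M x < g t := by
  by_contra hcon
  push Not at hcon
  have hg : ∀ i, i < x → g i ≤ M x := by
    intro i hi
    by_contra h1
    push Not at h1
    have h2 := g_le h hx
    obtain ⟨t, ht, h3, h5⟩ := hP.left hi hx (by linarith)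
    have := hcon t ht h3
    linarith
  have hv : v ≤ N := by omega
  obtain ⟨r, hr⟩ := h.attained v hv
  have hkey : M v ≤ M x := by
    rcases Nat.lt_or_ge (min (v + r) N) x with h1 | h1
    · have h5 := card_pos' (N := N) r hv
      have h6 : ∑ i ∈ I N v r, g i ≤ M x * ((I N v r).card : ℝ) := by
        have := sum_le_sum (s := I N v r) (f := g) (g := fun _ => M x) (fun i hi => by
          simp only [I, mem_Icc] at hi
          exact hg i (by omega))
        rw [sum_const, nsmul_eq_mul, mul_comm] at this
        exact this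
      rw [← hr] at h6
      exact le_of_mul_le_mul_right h6 h5
    · rcases Nat.lt_or_ge N (v + r) with h2 | h2
      · -- truncated on the right
        refine le_of_subset h hv hx (ρ := N - x) hr ?_ ?_
        · intro i; simp only [I, mem_Icc]; omega
        · intro i hi
          simp only [I, mem_sdiff, mem_Icc] at hi
          exact hg i (by omega)
      · refine le_of_subset h hv hx (ρ := v + r - x) hr ?_ ?_
        · intro i; simp only [I, mem_Icc]; omega
        · intro i hi
          simp only [I, mem_sdiff, mem_Icc] at hi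
          exact hg i (by omega)
  linarith

/-- the first cell: the first peak is attached -/
lemma attached_first (h : IsMax N g M) (hP : Tops N g P) {z x : ℕ} (hzx : z ≤ x) (hx : x ≤ N)
    (hmax : ∀ i ≤ x, M i ≤ M z) (hlt : M x < M z) : ∃ t ∈ P, t < x ∧ g t = M z := by
  -- the last point of `[0, x]` at which the maximum is attained
  let S := (range (x + 1)).filter (fun i => M i = M z)
  have hS : S.Nonempty := ⟨z, by simp [S]; omega⟩
  obtain ⟨w, hwS, hw⟩ : ∃ w ∈ S, ∀ i ∈ S, i ≤ w := ⟨S.max' hS, S.max'_mem hS, S.le_max'⟩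
  have hw1 : w < x + 1 ∧ M w = M z := by simpa [S] using hwS
  have hwx : w < x := by
    rcases Nat.lt_or_ge w x with h1 | h1
    · exact h1
    · have : w = x := by omega
      subst this; linarith [hw1.2]
  by_contra hcon
  push Not at hcon
  have hg : ∀ i ≤ x, g i < M z := by
    intro i hi
    by_contra h1
    push Not at h1
    have h2 := g_le h hx
    have hix : i < x := by
      rcases Nat.lt_or_ge i x with h3 | h3
      · exact h3
      · have : i = x := by omega
        subst this; linarith
    obtain ⟨t, ht, h3, h5⟩ := hP.left hix hx (by linarith)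
    have h6 := g_le h (show t ≤ N by omega)
    have h7 := hmax t h3.le
    exact hcon t ht h3 (by linarith)
  obtain ⟨r, hr⟩ := h.attained w (by omega)
  rcases Nat.eq_zero_or_pos r with h0 | h0
  · subst h0
    have h2 : I N w 0 = {w} := by
      ext i; simp only [I, mem_Icc, mem_singleton]; omega
    rw [h2] at hr
    simp only [card_singleton, sum_singleton, Nat.cast_one, mul_one] at hr
    have := hg w (by omega)
    linarith [hw1.2]
  · -- move the centre to the right
    have hsub : I N (w + 1) (r - 1) ⊆ I N w r := by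
      intro i; simp only [I, mem_Icc]; omega
    have h1 := h.le (w + 1) (by omega) (r - 1)
    have h3 := sum_sdiff (f := g) hsub
    have h4 : ((I N w r \ I N (w + 1) (r - 1)).card : ℝ) + ((I N (w + 1) (r - 1)).card : ℝ) =
        ((I N w r).card : ℝ) := by
      exact_mod_cast card_sdiff_add_card_eq_card hsub
    have h2 : ∑ i ∈ I N w r \ I N (w + 1) (r - 1), g i ≤
        M z * ((I N w r \ I N (w + 1) (r - 1)).card : ℝ) := by
      have := sum_le_sum (s := I N w r \ I N (w + 1) (r - 1)) (f := g) (g := fun _ => M z)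
        (fun i hi => by
          simp only [I, mem_sdiff, mem_Icc] at hi
          exact (hg i (by omega)).le)
      rw [sum_const, nsmul_eq_mul, mul_comm] at this
      exact this
    have h5 := card_pos' (N := N) (r - 1) (show w + 1 ≤ N by omega)
    have h6 : M z ≤ M (w + 1) := by
      have : M z * ((I N (w + 1) (r - 1)).card : ℝ) ≤
          M (w + 1) * ((I N (w + 1) (r - 1)).card : ℝ) := by
        rw [hw1.2, ← h4, mul_add] at hr
        linarith
      exact le_of_mul_le_mul_right this h5
    have h7 : M (w + 1) = M z := le_antisymm (hmax _ (by omega)) h6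
    have := hw (w + 1) (by simp [S, h7]; omega)
    omega

/-- the last cell: the last peak is attached -/
lemma attached_last (h : IsMax N g M) (hP : Tops N g P) {y z : ℕ} (hyz : y ≤ z) (hz : z ≤ N)
    (hmax : ∀ i, y ≤ i → i ≤ N → M i ≤ M z) (hlt : M y < M z) :
    ∃ t ∈ P, y < t ∧ t ≤ N ∧ g t = M z := by
  let S := (Icc y N).filter (fun i => M i = M z)
  have hS : S.Nonempty := ⟨z, by simp [S]; omega⟩
  obtain ⟨w, hwS, hw⟩ : ∃ w ∈ S, ∀ i ∈ S, w ≤ i := ⟨S.min' hS, S.min'_mem hS, S.min'_le⟩
  have hw1 : (y ≤ w ∧ w ≤ N) ∧ M w = M z := by simpa [S] using hwS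
  have hyw : y < w := by
    rcases Nat.lt_or_ge y w with h1 | h1
    · exact h1
    · have : w = y := by omega
      subst this; linarith [hw1.2]
  by_contra hcon
  push Not at hcon
  have hg : ∀ i, y ≤ i → i ≤ N → g i < M z := by
    intro i hi hiN
    by_contra h1
    push Not at h1
    have h2 := g_le h (show y ≤ N by omega)
    have hix : y < i := by
      rcases Nat.lt_or_ge y i with h3 | h3
      · exact h3
      · have : i = y := by omega
        subst this; linarith
    obtain ⟨t, ht, h3, h4, h5⟩ := hP.right hix hiN (by linarith)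
    have h6 := g_le h h4
    have h7 := hmax t h3.le h4
    exact hcon t ht h3 h4 (by linarith)
  obtain ⟨r, hr⟩ := h.attained w (by omega)
  rcases Nat.eq_zero_or_pos r with h0 | h0
  · subst h0
    have h2 : I N w 0 = {w} := by
      ext i; simp only [I, mem_Icc, mem_singleton]; omega
    rw [h2] at hr
    simp only [card_singleton, sum_singleton, Nat.cast_one, mul_one] at hr
    have := hg w (by omega) (by omega)
    linarith [hw1.2]
  · have hsub : I N (w - 1) (r - 1) ⊆ I N w r := by
      intro i; simp only [I, mem_Icc]; omega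
    have h1 := h.le (w - 1) (by omega) (r - 1)
    have h3 := sum_sdiff (f := g) hsub
    have h4 : ((I N w r \ I N (w - 1) (r - 1)).card : ℝ) + ((I N (w - 1) (r - 1)).card : ℝ) =
        ((I N w r).card : ℝ) := by
      exact_mod_cast card_sdiff_add_card_eq_card hsub
    have h2 : ∑ i ∈ I N w r \ I N (w - 1) (r - 1), g i ≤
        M z * ((I N w r \ I N (w - 1) (r - 1)).card : ℝ) := by
      have := sum_le_sum (s := I N w r \ I N (w - 1) (r - 1)) (f := g) (g := fun _ => M z)
        (fun i hi => by
          simp only [I, mem_sdiff, mem_Icc] at hi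
          exact (hg i (by omega) (by omega)).le)
      rw [sum_const, nsmul_eq_mul, mul_comm] at this
      exact this
    have h5 := card_pos' (N := N) (r - 1) (show w - 1 ≤ N by omega)
    have h6 : M z ≤ M (w - 1) := by
      have : M z * ((I N (w - 1) (r - 1)).card : ℝ) ≤
          M (w - 1) * ((I N (w - 1) (r - 1)).card : ℝ) := by
        rw [hw1.2, ← h4, mul_add] at hr
        linarith
      exact le_of_mul_le_mul_right this h5
    have h7 : M (w - 1) = M z := le_antisymm (hmax _ (by omega) (by omega)) h6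
    have := hw (w - 1) (by simp [S, h7]; omega)
    omega

/-- **Detached peaks.** The optimal ball of a peak at which `g` is smaller than the value of the
peak on the whole cell, enlarged to `[A, E]` so that it contains two high points of `P` on the two
sides of the cell. -/
lemma detached (h : IsMax N g M) (hP : Tops N g P) {y z x : ℕ} (hyz : y < z) (hzx : z < x)
    (hx : x ≤ N) (hmax : ∀ i, y ≤ i → i ≤ x → M i ≤ M z) (hy : M y < M z) (hx' : M x < M z)
    (hg : ∀ i, y ≤ i → i ≤ x → g i < M z) :
    ∃ A E t t' : ℕ, t ∈ P ∧ t' ∈ P ∧ A ≤ t ∧ t < y ∧ x < t' ∧ t' ≤ E ∧ E ≤ N ∧ M z ≤ g t ∧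
      M z ≤ g t' ∧ 2 * y ≤ A + E ∧ A + E ≤ 2 * x ∧
      M z * ((E : ℝ) - A + 1) ≤ M y * (2 * ((E : ℝ) - y) + 1) ∧
      M z * ((E : ℝ) - A + 1) ≤ M x * (2 * ((x : ℝ) - A) + 1) := by
  -- the optimal pairs
  let S := ((Icc y x) ×ˢ (range (N + 1))).filter
    (fun p => M z * ((I N p.1 p.2).card : ℝ) = ∑ i ∈ I N p.1 p.2, g i)
  have hS : S.Nonempty := by
    obtain ⟨r, hr⟩ := h.attained z (by omega)
    rcases Nat.lt_or_ge r (N + 1) with h1 | h1
    · exact ⟨(z, r), by simp only [S, mem_filter, mem_product, mem_Icc, mem_range]; exact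
        ⟨⟨⟨hyz.le, hzx.le⟩, h1⟩, hr⟩⟩
    · have h2 : I N z r = I N z N := by
        ext i; simp only [I, mem_Icc]; omega
      rw [h2] at hr
      exact ⟨(z, N), by simp only [S, mem_filter, mem_product, mem_Icc, mem_range]; exact
        ⟨⟨⟨hyz.le, hzx.le⟩, by omega⟩, hr⟩⟩
  obtain ⟨⟨w, r⟩, hwS, hw⟩ := exists_max_image S (fun p => p.2) hS
  have hw1 : ((y ≤ w ∧ w ≤ x) ∧ r < N + 1) ∧
      M z * ((I N w r).card : ℝ) = ∑ i ∈ I N w r, g i := by
    simpa only [S, mem_filter, mem_product, mem_Icc, mem_range] using hwS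
  obtain ⟨⟨⟨hyw, hwx⟩, hrN⟩, hr⟩ := hw1
  have hwN : w ≤ N := by omega
  have hMw : M w = M z := by
    have h1 := h.le w hwN r
    have h2 := card_pos' (N := N) r hwN
    rw [← hr] at h1
    exact le_antisymm (hmax w hyw hwx) (le_of_mul_le_mul_right h1 h2)
  have hyw' : y < w := by
    rcases Nat.lt_or_ge y w with h1 | h1
    · exact h1
    · have : w = y := by omega
      subst this; linarith
  have hwx' : w < x := by
    rcases Nat.lt_or_ge w x with h1 | h1
    · exact h1
    · have : w = x := by omega
      subst this; linarith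
  have hle : ∀ v ρ, y ≤ v → v ≤ x → ∑ i ∈ I N v ρ, g i ≤ M z * ((I N v ρ).card : ℝ) := by
    intro v ρ h1 h2
    have h3 := h.le v (by omega) ρ
    have h4 := card_pos' (N := N) ρ (show v ≤ N by omega)
    have h5 := hmax v h1 h2
    nlinarith
  have hstrict : ∀ v ρ, y ≤ v → v ≤ x → r < ρ → ρ ≤ N →
      ∑ i ∈ I N v ρ, g i < M z * ((I N v ρ).card : ℝ) := by
    intro v ρ h1 h2 h3 h4
    refine lt_of_le_of_ne (hle v ρ h1 h2) fun h5 => ?_
    have h6 := hw (v, ρ) (by
      simp only [S, mem_filter, mem_product, mem_Icc, mem_range]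
      exact ⟨⟨⟨h1, h2⟩, by omega⟩, h5.symm⟩)
    simp only at h6
    omega
  -- the ball is not everything
  have hr1 : r < N := by
    rcases Nat.lt_or_ge r N with h1 | h1
    · exact h1
    · exfalso
      have h2 : I N w r = I N y N := by
        ext i; simp only [I, mem_Icc]; omega
      rw [h2] at hr
      have h3 := h.le y (by omega) N
      rw [← hr] at h3
      have h4 := card_pos' (N := N) N (show y ≤ N by omega)
      have := le_of_mul_le_mul_right h3 h4
      linarith
  have hr0 : 1 ≤ r := by
    rcases Nat.eq_zero_or_pos r with h0 | h0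
    · exfalso
      subst h0
      have h2 : I N w 0 = {w} := by
        ext i; simp only [I, mem_Icc, mem_singleton]; omega
      rw [h2] at hr
      simp only [card_singleton, sum_singleton, Nat.cast_one, mul_one] at hr
      have := hg w hyw hwx
      linarith
    · exact h0
  -- not truncated
  have ha : r + 1 ≤ w := by
    by_contra hcon
    push Not at hcon
    have h1 : I N (w - 1) (r + 1) = I N w r := by
      ext i; simp only [I, mem_Icc]; omega
    have h2 := hstrict (w - 1) (r + 1) (by omega) (by omega) (by omega) (by omega)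
    rw [h1, ← hr] at h2
    exact lt_irrefl _ h2
  have he : w + r + 1 ≤ N := by
    by_contra hcon
    push Not at hcon
    have h1 : I N (w + 1) (r + 1) = I N w r := by
      ext i; simp only [I, mem_Icc]; omega
    have h2 := hstrict (w + 1) (r + 1) (by omega) (by omega) (by omega) (by omega)
    rw [h1, ← hr] at h2
    exact lt_irrefl _ h2
  obtain ⟨a, ha'⟩ : ∃ a, w = a + 1 + r := ⟨w - 1 - r, by omega⟩
  -- `I N w r = [a + 1, a + 1 + 2 r]`
  have hI : ∀ v ρ, ρ ≤ v → v + ρ ≤ N → I N v ρ = Icc (v - ρ) (v + ρ) := by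
    intro v ρ h1 h2
    unfold I
    rw [min_eq_left h2]
  have hIw : I N w r = Icc (a + 1) (a + 1 + 2 * r) := by
    rw [hI w r (by omega) (by omega)]; congr 1 <;> omega
  have hcard : ((I N w r).card : ℝ) = 2 * r + 1 := by
    rw [hIw, Nat.card_Icc, show a + 1 + 2 * r + 1 - (a + 1) = 2 * r + 1 by omega]
    push_cast; ring
  rw [hcard, hIw] at hr
  -- sums over the translated balls
  have hL : 2 * M z ≤ g (a + 1) + g (a + 2) := by
    have h1 := hle (w + 1) (r - 1) (by omega) (by omega)
    rw [hI (w + 1) (r - 1) (by omega) (by omega),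
      show w + 1 - (r - 1) = a + 3 by omega, show w + 1 + (r - 1) = a + 1 + 2 * r by omega,
      Nat.card_Icc, show a + 1 + 2 * r + 1 - (a + 3) = 2 * r - 1 by omega,
      Nat.cast_sub (by omega)] at h1
    have h2 : Icc (a + 1) (a + 1 + 2 * r) = insert (a + 1) (insert (a + 2)
        (Icc (a + 3) (a + 1 + 2 * r))) := by
      ext i; simp only [mem_insert, mem_Icc]; omega
    rw [h2, sum_insert (by simp), sum_insert (by simp)] at hr
    push_cast at h1
    linarith
  have hR : 2 * M z ≤ g (a + 1 + 2 * r) + g (a + 2 * r) := by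
    have h1 := hle (w - 1) (r - 1) (by omega) (by omega)
    rw [hI (w - 1) (r - 1) (by omega) (by omega),
      show w - 1 - (r - 1) = a + 1 by omega, show w - 1 + (r - 1) = a + 2 * r - 1 by omega,
      Nat.card_Icc, show a + 2 * r - 1 + 1 - (a + 1) = 2 * r - 1 by omega,
      Nat.cast_sub (by omega)] at h1
    have h2 : Icc (a + 1) (a + 1 + 2 * r) = insert (a + 1 + 2 * r) (insert (a + 2 * r)
        (Icc (a + 1) (a + 2 * r - 1))) := by
      ext i; simp only [mem_insert, mem_Icc]; omega
    rw [h2, sum_insert (by simp only [mem_insert, mem_Icc]; omega),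
      sum_insert (by simp only [mem_Icc]; omega)] at hr
    push_cast at h1
    linarith
  -- the high points of `g` at the ends of the ball
  obtain ⟨xa, hxa1, hxa2, hxa3⟩ : ∃ xa, a + 1 ≤ xa ∧ xa ≤ a + 2 ∧ M z ≤ g xa := by
    rcases le_total (M z) (g (a + 1)) with h1 | h1
    · exact ⟨a + 1, le_rfl, by omega, h1⟩
    · exact ⟨a + 2, by omega, le_rfl, by linarith⟩
  obtain ⟨xe, hxe1, hxe2, hxe3⟩ : ∃ xe, a + 2 * r ≤ xe ∧ xe ≤ a + 1 + 2 * r ∧ M z ≤ g xe := by
    rcases le_total (M z) (g (a + 1 + 2 * r)) with h1 | h1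
    · exact ⟨a + 1 + 2 * r, by omega, le_rfl, h1⟩
    · exact ⟨a + 2 * r, le_rfl, by omega, by linarith⟩
  have hxay : xa < y := by
    by_contra hcon
    push Not at hcon
    have := hg xa hcon (by omega)
    linarith
  have hxex : x < xe := by
    by_contra hcon
    push Not at hcon
    have := hg xe (by omega) hcon
    linarith
  have hgy := hg y le_rfl (by omega)
  have hgx := hg x (by omega) le_rfl
  -- outside the ball on the left
  have hout : g a < M z ∨ (1 ≤ a ∧ g (a - 1) < M z) := by
    have h2 := hstrict (w - 1) (r + 1) (by omega) (by omega) (by omega) (by omega)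
    rcases Nat.eq_zero_or_pos a with h0 | h0
    · left
      have h3 : I N (w - 1) (r + 1) = insert 0 (Icc (a + 1) (a + 1 + 2 * r)) := by
        ext i; simp only [I, mem_insert, mem_Icc]; omega
      rw [h3, sum_insert (by simp), ← hr, card_insert_of_notMem (by simp), Nat.card_Icc,
        show a + 1 + 2 * r + 1 - (a + 1) = 2 * r + 1 by omega] at h2
      push_cast at h2
      rw [h0]
      linarith
    · have h3 : I N (w - 1) (r + 1) = insert a (insert (a - 1)
          (Icc (a + 1) (a + 1 + 2 * r))) := by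
        ext i; simp only [I, mem_insert, mem_Icc]; omega
      rw [h3, sum_insert (by simp only [mem_insert, mem_Icc]; omega),
        sum_insert (by simp only [mem_Icc]; omega), ← hr,
        card_insert_of_notMem (by simp only [mem_insert, mem_Icc]; omega),
        card_insert_of_notMem (by simp only [mem_Icc]; omega), Nat.card_Icc,
        show a + 1 + 2 * r + 1 - (a + 1) = 2 * r + 1 by omega] at h2
      push_cast at h2
      rcases lt_or_ge (g a) (M z) with h4 | h4
      · exact Or.inl h4
      · right; exact ⟨h0, by linarith⟩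
  have hout' : g (a + 2 + 2 * r) < M z ∨ (a + 3 + 2 * r ≤ N ∧ g (a + 3 + 2 * r) < M z) := by
    have h2 := hstrict (w + 1) (r + 1) (by omega) (by omega) (by omega) (by omega)
    rcases Nat.lt_or_ge N (a + 3 + 2 * r) with h0 | h0
    · left
      have h3 : I N (w + 1) (r + 1) = insert (a + 2 + 2 * r)
          (Icc (a + 1) (a + 1 + 2 * r)) := by
        ext i; simp only [I, mem_insert, mem_Icc]; omega
      rw [h3, sum_insert (by simp only [mem_Icc]; omega), ← hr,
        card_insert_of_notMem (by simp only [mem_Icc]; omega), Nat.card_Icc,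
        show a + 1 + 2 * r + 1 - (a + 1) = 2 * r + 1 by omega] at h2
      push_cast at h2
      linarith
    · have h3 : I N (w + 1) (r + 1) = insert (a + 2 + 2 * r) (insert (a + 3 + 2 * r)
          (Icc (a + 1) (a + 1 + 2 * r))) := by
        ext i; simp only [I, mem_insert, mem_Icc]; omega
      rw [h3, sum_insert (by simp only [mem_insert, mem_Icc]; omega),
        sum_insert (by simp only [mem_Icc]; omega), ← hr,
        card_insert_of_notMem (by simp only [mem_insert, mem_Icc]; omega),
        card_insert_of_notMem (by simp only [mem_Icc]; omega), Nat.card_Icc,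
        show a + 1 + 2 * r + 1 - (a + 1) = 2 * r + 1 by omega] at h2
      push_cast at h2
      rcases lt_or_ge (g (a + 2 + 2 * r)) (M z) with h4 | h4
      · exact Or.inl h4
      · right; exact ⟨h0, by linarith⟩
  -- the ball enlarged by one on both sides
  have hboth : g a + g (a + 2 + 2 * r) < 2 * M z := by
    have h2 := hstrict w (r + 1) (by omega) (by omega) (by omega) (by omega)
    have h3 : I N w (r + 1) = insert a (insert (a + 2 + 2 * r)
          (Icc (a + 1) (a + 1 + 2 * r))) := by
      ext i; simp only [I, mem_insert, mem_Icc]; omega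
    rw [h3, sum_insert (by simp only [mem_insert, mem_Icc]; omega),
      sum_insert (by simp only [mem_Icc]; omega), ← hr,
      card_insert_of_notMem (by simp only [mem_insert, mem_Icc]; omega),
      card_insert_of_notMem (by simp only [mem_Icc]; omega), Nat.card_Icc,
      show a + 1 + 2 * r + 1 - (a + 1) = 2 * r + 1 by omega] at h2
    push_cast at h2
    linarith
  -- the two points of `P`
  obtain ⟨t, htP, hat, hty, hgt⟩ : ∃ t ∈ P, a ≤ t ∧ t < y ∧ M z ≤ g t ∧ True := by
    rcases hout with h1 | ⟨h0, h1⟩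
    · obtain ⟨t, ht, h2, h3, h4⟩ := hP.between (a := a) (x := xa) (b := y) (by omega) hxay
        (by omega) (by linarith) (by linarith)
      exact ⟨t, ht, by omega, h3, by linarith, trivial⟩
    · obtain ⟨t, ht, h2, h3, h4⟩ := hP.between (a := a - 1) (x := xa) (b := y) (by omega) hxay
        (by omega) (by linarith) (by linarith)
      exact ⟨t, ht, by omega, h3, by linarith, trivial⟩
  obtain ⟨t', htP', hat', hty', hgt'⟩ :
      ∃ t' ∈ P, x < t' ∧ t' ≤ a + 2 + 2 * r ∧ M z ≤ g t' ∧ True := by
    rcases hout' with h1 | ⟨h0, h1⟩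
    · obtain ⟨t, ht, h2, h3, h4⟩ := hP.between (a := x) (x := xe) (b := a + 2 + 2 * r) hxex
        (by omega) (by omega) (by linarith) (by linarith)
      exact ⟨t, ht, h2, by omega, by linarith, trivial⟩
    · obtain ⟨t, ht, h2, h3, h4⟩ := hP.between (a := x) (x := xe) (b := a + 3 + 2 * r) hxex
        (by omega) (by omega) (by linarith) (by linarith)
      exact ⟨t, ht, h2, by omega, by linarith, trivial⟩
  have hgt1 := hgt.1
  have hgt1' := hgt'.1
  -- the superballs
  have hsuper : ∀ A E : ℕ, A ≤ a + 1 → a + 1 + 2 * r ≤ E → E ≤ N → 2 * w ≤ A + E + 1 →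
      A + E ≤ 2 * w + 1 →
      M z * ((E : ℝ) - A + 1) ≤ ∑ i ∈ Icc A E, g i →
      M z * ((E : ℝ) - A + 1) ≤ M y * (2 * ((E : ℝ) - y) + 1) ∧
      M z * ((E : ℝ) - A + 1) ≤ M x * (2 * ((x : ℝ) - A) + 1) := by
    intro A E h1 h2 h3 h4 h4' h5
    have hMy := h.M_nonneg (show y ≤ N by omega)
    have hMx := h.M_nonneg hx
    constructor
    · have h6 := h.le y (by omega) (E - y)
      have h7 : ∑ i ∈ Icc A E, g i ≤ ∑ i ∈ I N y (E - y), g i := by
        refine sum_le_sum_of_subset_of_nonneg ?_ fun i _ _ => h.nonneg i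
        intro i; simp only [I, mem_Icc]; omega
      have h8 : ((I N y (E - y)).card : ℝ) ≤ 2 * ((E : ℝ) - y) + 1 := by
        have : (I N y (E - y)).card ≤ 2 * (E - y) + 1 := by
          rw [card_I]; omega
        have h9 : ((I N y (E - y)).card : ℝ) ≤ ((2 * (E - y) + 1 : ℕ) : ℝ) := by
          exact_mod_cast this
        rw [Nat.cast_add, Nat.cast_mul, Nat.cast_sub (by omega)] at h9
        push_cast at h9
        exact h9
      have h9 := mul_le_mul_of_nonneg_left h8 hMy
      linarith
    · have h6 := h.le x hx (x - A)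
      have h7 : ∑ i ∈ Icc A E, g i ≤ ∑ i ∈ I N x (x - A), g i := by
        refine sum_le_sum_of_subset_of_nonneg ?_ fun i _ _ => h.nonneg i
        intro i; simp only [I, mem_Icc]; omega
      have h8 : ((I N x (x - A)).card : ℝ) ≤ 2 * ((x : ℝ) - A) + 1 := by
        have : (I N x (x - A)).card ≤ 2 * (x - A) + 1 := by
          rw [card_I]; omega
        have h9 : ((I N x (x - A)).card : ℝ) ≤ ((2 * (x - A) + 1 : ℕ) : ℝ) := by
          exact_mod_cast this
        rw [Nat.cast_add, Nat.cast_mul, Nat.cast_sub (by omega)] at h9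
        push_cast at h9
        exact h9
      have h9 := mul_le_mul_of_nonneg_left h8 hMx
      linarith
  rcases Nat.eq_or_lt_of_le hat with h1 | h1
  · -- `t = a`, so the point on the right is in the ball
    have h2 : t' ≤ a + 1 + 2 * r := by
      by_contra hcon
      push Not at hcon
      have h3 : t' = a + 2 + 2 * r := by omega
      have h4 : g a = g t := by rw [h1]
      have h5 : g (a + 2 + 2 * r) = g t' := by rw [h3]
      linarith
    have h5 : M z * (((a + 1 + 2 * r : ℕ) : ℝ) - a + 1) ≤ ∑ i ∈ Icc a (a + 1 + 2 * r), g i := by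
      have h3 : Icc a (a + 1 + 2 * r) = insert a (Icc (a + 1) (a + 1 + 2 * r)) := by
        ext i; simp only [mem_insert, mem_Icc]; omega
      rw [h3, sum_insert (by simp), ← hr]
      push_cast
      rw [← h1] at hgt1
      linarith
    obtain ⟨h6, h7⟩ := hsuper a (a + 1 + 2 * r) (by omega) le_rfl (by omega) (by omega)
      (by omega) h5
    exact ⟨a, a + 1 + 2 * r, t, t', htP, htP', hat, hty, hat', h2, by omega, hgt1, hgt1',
      by omega, by omega, h6, h7⟩
  · rcases Nat.lt_or_ge (a + 1 + 2 * r) t' with h2 | h2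
    · have h3 : t' = a + 2 + 2 * r := by omega
      have h5 : M z * (((a + 2 + 2 * r : ℕ) : ℝ) - (a + 1 : ℕ) + 1) ≤
          ∑ i ∈ Icc (a + 1) (a + 2 + 2 * r), g i := by
        have h4 : Icc (a + 1) (a + 2 + 2 * r) = insert (a + 2 + 2 * r)
            (Icc (a + 1) (a + 1 + 2 * r)) := by
          ext i; simp only [mem_insert, mem_Icc]; omega
        rw [h4, sum_insert (by simp only [mem_Icc]; omega), ← hr]
        push_cast
        rw [h3] at hgt1'
        linarith
      obtain ⟨h6, h7⟩ := hsuper (a + 1) (a + 2 + 2 * r) le_rfl (by omega) (by omega) (by omega)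
        (by omega) h5
      exact ⟨a + 1, a + 2 + 2 * r, t, t', htP, htP', h1, hty, hat', hty', by omega, hgt1, hgt1',
        by omega, by omega, h6, h7⟩
    · have h5 : M z * (((a + 1 + 2 * r : ℕ) : ℝ) - (a + 1 : ℕ) + 1) ≤
          ∑ i ∈ Icc (a + 1) (a + 1 + 2 * r), g i := by
        rw [← hr]
        push_cast
        linarith
      obtain ⟨h6, h7⟩ := hsuper (a + 1) (a + 1 + 2 * r) le_rfl le_rfl (by omega) (by omega)
        (by omega) h5
      exact ⟨a + 1, a + 1 + 2 * r, t, t', htP, htP', h1, hty, hat', h2, by omega, hgt1, hgt1',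
        by omega, by omega, h6, h7⟩

end Pool.Agent.Helper37_EM
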