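import Pool.Agent.Helper37_EM.Level

/-!
# The cell inequalities
-/

set_option autoImplicit false

open Finset

namespace Pool.Agent.Helper37_EM

open Pool.Agent.Helper51_Max

variable {N : ℕ} {g M : ℕ → ℝ} {P : Finset ℕ} {V : Finset ℝ} {w : ℝ → ℝ}

lemma Lam_le {S : Finset ℕ} {x : ℕ} (h : Has S x) :
    Lam N S x ≤ 1 / (2 * ((N : ℝ) + 1)) + N / ((N : ℝ) + 1) := by
  unfold Lam
  have h1 := mul_le_mul_of_nonneg_left (lam_le_one h) (c_nonneg N)
  linarith

lemma le_Lam {S : Finset ℕ} {x : ℕ} (h : Has S x) : 1 / (2 * ((N : ℝ) + 1)) ≤ Lam N S x := by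
  unfold Lam
  have h1 := mul_nonneg (c_nonneg N) (lam_nonneg h)
  linarith

/-- the ball touching an attached peak -/
lemma touch (h : IsMax N g M) {x s : ℕ} (hx : x ≤ N) (hs : s ≤ N) (hxs : s ≤ x) :
    g s ≤ M x * (2 * ((x : ℝ) - s) + 1) := by
  have h1 := h.le x hx (x - s)
  have h2 : g s ≤ ∑ i ∈ I N x (x - s), g i :=
    single_le_sum (f := g) (fun i _ => h.nonneg i) (by simp only [I, mem_Icc]; omega)
  have h3 : ((I N x (x - s)).card : ℝ) ≤ 2 * ((x : ℝ) - s) + 1 := by
    have : (I N x (x - s)).card ≤ 2 * (x - s) + 1 := by rw [card_I]; omega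
    have h9 : ((I N x (x - s)).card : ℝ) ≤ ((2 * (x - s) + 1 : ℕ) : ℝ) := by exact_mod_cast this
    rw [Nat.cast_add, Nat.cast_mul, Nat.cast_sub hxs] at h9
    push_cast at h9
    exact h9
  have h4 := mul_le_mul_of_nonneg_left h3 (h.M_nonneg hx)
  linarith

lemma touch' (h : IsMax N g M) {x s : ℕ} (hx : x ≤ N) (hs : s ≤ N) (hxs : x ≤ s) :
    g s ≤ M x * (2 * ((s : ℝ) - x) + 1) := by
  have h1 := h.le x hx (s - x)
  have h2 : g s ≤ ∑ i ∈ I N x (s - x), g i :=
    single_le_sum (f := g) (fun i _ => h.nonneg i) (by simp only [I, mem_Icc]; omega)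
  have h3 : ((I N x (s - x)).card : ℝ) ≤ 2 * ((s : ℝ) - x) + 1 := by
    have : (I N x (s - x)).card ≤ 2 * (s - x) + 1 := by rw [card_I]; omega
    have h9 : ((I N x (s - x)).card : ℝ) ≤ ((2 * (s - x) + 1 : ℕ) : ℝ) := by exact_mod_cast this
    rw [Nat.cast_add, Nat.cast_mul, Nat.cast_sub hxs] at h9
    push_cast at h9
    exact h9
  have h4 := mul_le_mul_of_nonneg_left h3 (h.M_nonneg hx)
  linarith

lemma Data.lev_le (D : Data N g M P V w) (v : ℝ) : ∀ t ∈ lev g P v, t ≤ N := by
  intro t ht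
  simp only [lev, mem_filter] at ht
  exact D.sub t ht.1

/-- right half of an attached cell -/
lemma Data.half_right (D : Data N g M P V w) {s x : ℕ} (hs : s ∈ P) (hsx : s < x) (hx : x ≤ N)
    (hin : Inner N M x) (hlt : M x < g s) :
    g s / (2 * ((N : ℝ) + 1)) ≤ Phi N g M P V w x +
      (N / ((N : ℝ) + 1)) * ∑ t ∈ P.filter (fun t => s < t ∧ t < x), g t := by
  have hN : 0 < N := by omega
  have hNR : (0 : ℝ) < N := by exact_mod_cast hN
  have h1 := touch D.max hx (D.sub s hs) hsx.le
  have h2 : M x * (1 / (2 * ((N : ℝ) + 1)) * (2 * ((x : ℝ) - s) + 1)) ≤ Phi N g M P V w x +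
      (N / ((N : ℝ) + 1)) * ∑ t ∈ P.filter (fun t => s < t ∧ t < x), g t := by
    conv_lhs => rw [← D.hM x hx]
    rw [D.sum_points, D.Phi_eq, mul_sum, ← sum_add_distrib, sum_filter, sum_mul]
    apply sum_le_sum
    intro v hv
    have hwv := D.wnn v hv
    have hc : (0 : ℝ) ≤ (((lev g P v).filter (fun t => s < t ∧ t < x)).card : ℝ) := by
      positivity
    by_cases hvx : v ≤ M x
    · rw [if_pos hvx, if_pos hvx]
      have hhas := D.has hx hin hvx
      have hsl : s ∈ lev g P v := by
        simp only [lev, mem_filter]; exact ⟨hs, by linarith⟩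
      have h3 := right_half hhas hsl hsx (D.lev_le v)
      have h4 : 1 / (2 * ((N : ℝ) + 1)) * (2 * ((x : ℝ) - s) + 1) ≤ Lam N (lev g P v) x +
          (N / ((N : ℝ) + 1)) * (((lev g P v).filter (fun t => s < t ∧ t < x)).card : ℝ) := by
        unfold Lam
        have h5 := mul_le_mul_of_nonneg_left h3 (c_nonneg N)
        have h6 : (N / ((N : ℝ) + 1)) * (((x : ℝ) - s) / N) =
            1 / (2 * ((N : ℝ) + 1)) * (2 * ((x : ℝ) - s)) := by
          field_simp
        rw [h6] at h5
        linarith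
      have h5 := mul_le_mul_of_nonneg_left h4 hwv
      linarith
    · rw [if_neg hvx, if_neg hvx]
      have := mul_nonneg (c_nonneg N) (mul_nonneg hwv hc)
      linarith
  have h3 : g s / (2 * ((N : ℝ) + 1)) ≤
      M x * (1 / (2 * ((N : ℝ) + 1)) * (2 * ((x : ℝ) - s) + 1)) := by
    have h4 := mul_le_mul_of_nonneg_left h1 (eta_pos N).le
    have h5 : g s / (2 * ((N : ℝ) + 1)) = 1 / (2 * ((N : ℝ) + 1)) * g s := by ring
    rw [h5]
    linarith
  linarith

/-- left half of an attached cell -/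
lemma Data.half_left (D : Data N g M P V w) {s y : ℕ} (hs : s ∈ P) (hys : y < s)
    (hin : Inner N M y) (hlt : M y < g s) :
    g s / (2 * ((N : ℝ) + 1)) ≤ (M y - Phi N g M P V w y) +
      (N / ((N : ℝ) + 1)) * ∑ t ∈ P.filter (fun t => y ≤ t ∧ t < s), g t := by
  have hsN := D.sub s hs
  have hN : 0 < N := by omega
  have hy : y ≤ N := by omega
  have hNR : (0 : ℝ) < N := by exact_mod_cast hN
  have h1 := touch' D.max hy hsN hys.le
  have h2 : M y * (1 / (2 * ((N : ℝ) + 1)) * (2 * ((s : ℝ) - y) + 1)) ≤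
      (M y - Phi N g M P V w y) +
      (N / ((N : ℝ) + 1)) * ∑ t ∈ P.filter (fun t => y ≤ t ∧ t < s), g t := by
    rw [D.sum_points, D.sub_Phi hy, mul_sum, ← sum_add_distrib]
    conv_lhs => rw [← D.hM y hy]
    rw [sum_filter, sum_mul]
    apply sum_le_sum
    intro v hv
    have hwv := D.wnn v hv
    have hc : (0 : ℝ) ≤ (((lev g P v).filter (fun t => y ≤ t ∧ t < s)).card : ℝ) := by
      positivity
    by_cases hvx : v ≤ M y
    · rw [if_pos hvx, if_pos hvx]
      have hhas := D.has hy hin hvx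
      have hsl : s ∈ lev g P v := by
        simp only [lev, mem_filter]; exact ⟨hs, by linarith⟩
      have h3 := left_half hhas hsl hys (D.lev_le v)
      have h4 : 1 / (2 * ((N : ℝ) + 1)) * (2 * ((s : ℝ) - y) + 1) ≤ 1 - Lam N (lev g P v) y +
          (N / ((N : ℝ) + 1)) * (((lev g P v).filter (fun t => y ≤ t ∧ t < s)).card : ℝ) := by
        unfold Lam
        have h5 := mul_le_mul_of_nonneg_left h3 (c_nonneg N)
        have h6 : (N / ((N : ℝ) + 1)) * (((s : ℝ) - y) / N) =
            1 / (2 * ((N : ℝ) + 1)) * (2 * ((s : ℝ) - y)) := by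
          field_simp
        rw [h6] at h5
        have h7 := eta_c N
        linarith
      have h5 := mul_le_mul_of_nonneg_left h4 hwv
      linarith
    · rw [if_neg hvx, if_neg hvx]
      have := mul_nonneg (c_nonneg N) (mul_nonneg hwv hc)
      linarith
  have h3 : g s / (2 * ((N : ℝ) + 1)) ≤
      M y * (1 / (2 * ((N : ℝ) + 1)) * (2 * ((s : ℝ) - y) + 1)) := by
    have h4 := mul_le_mul_of_nonneg_left h1 (eta_pos N).le
    have h5 : g s / (2 * ((N : ℝ) + 1)) = 1 / (2 * ((N : ℝ) + 1)) * g s := by ring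
    rw [h5]
    linarith
  linarith

lemma filter_split {y s x : ℕ} (hys : y ≤ s) (hsx : s < x) (hs : s ∈ P) :
    ∑ t ∈ P.filter (fun t => y ≤ t ∧ t < x), g t =
      ∑ t ∈ P.filter (fun t => y ≤ t ∧ t < s), g t + g s +
      ∑ t ∈ P.filter (fun t => s < t ∧ t < x), g t := by
  have h1 : P.filter (fun t => y ≤ t ∧ t < x) =
      insert s (P.filter (fun t => y ≤ t ∧ t < s) ∪ P.filter (fun t => s < t ∧ t < x)) := by
    ext t
    simp only [mem_filter, mem_insert, mem_union]
    constructor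
    · rintro ⟨a, b, c⟩
      rcases lt_trichotomy t s with d | d | d
      · right; left; exact ⟨a, b, d⟩
      · left; exact d
      · right; right; exact ⟨a, d, c⟩
    · rintro (a | ⟨a, b, c⟩ | ⟨a, b, c⟩)
      · subst a; exact ⟨hs, hys, hsx⟩
      · exact ⟨a, b, by omega⟩
      · exact ⟨a, by omega, c⟩
  have h2 : Disjoint (P.filter (fun t => y ≤ t ∧ t < s)) (P.filter (fun t => s < t ∧ t < x)) := by
    rw [disjoint_left]
    intro t h3 h4
    simp only [mem_filter] at h3 h4
    omega
  rw [h1, sum_insert (by simp), sum_union h2]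
  ring

/-- cell inequality in an attached cell -/
lemma Data.cell_attached (D : Data N g M P V w) {y s x : ℕ} (hs : s ∈ P) (hys : y < s)
    (hsx : s < x) (hx : x ≤ N) (hy' : Inner N M y) (hx' : Inner N M x) (hlty : M y < g s)
    (hltx : M x < g s) :
    g s ≤ (M y - Phi N g M P V w y) + Phi N g M P V w x +
      (N / ((N : ℝ) + 1)) * (Q g P x - Q g P y) := by
  have h1 := D.half_left hs hys hy' hlty
  have h2 := D.half_right hs hsx hx hx' hltx
  rw [Q_sub (by omega), filter_split hys.le hsx hs]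
  have h3 := eta_c N
  have h4 : g s = g s / (2 * ((N : ℝ) + 1)) + g s / (2 * ((N : ℝ) + 1)) +
      (N / ((N : ℝ) + 1)) * g s := by
    have : (N : ℝ) + 1 ≠ 0 := by positivity
    field_simp
    ring
  linarith

/-- cell inequality in a detached cell -/
lemma Data.cell_detached (D : Data N g M P V w) {y z x : ℕ} (hyz : y < z) (hzx : z < x)
    (hx : x ≤ N) (hmax : ∀ i, y ≤ i → i ≤ x → M i ≤ M z) (hy : M y < M z) (hx' : M x < M z)
    (hg : ∀ i, y ≤ i → i ≤ x → g i < M z) (hyin : Inner N M y) (hxin : Inner N M x) :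
    M z ≤ (M y - Phi N g M P V w y) + Phi N g M P V w x +
      (N / ((N : ℝ) + 1)) * (Q g P x - Q g P y) := by
  obtain ⟨A, E, t, t', htP, htP', hAt, hty, hxt', htE', hEN, hgt, hgt', hAE, hAE', hsy, hsx⟩ :=
    detached D.max D.tops hyz hzx hx hmax hy hx' hg
  have hyx : y < x := by omega
  have hMz := D.max.M_nonneg (show z ≤ N by omega)
  have hMy := D.max.M_nonneg (show y ≤ N by omega)
  have hMx := D.max.M_nonneg hx
  have hc0 := c_nonneg N
  have hec := eta_c N
  rw [D.rhs_eq hyx.le hx]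
  -- superballs for any set containing `t` and `t'` and no point of the cell
  have hsup : ∀ S : Finset ℕ, t ∈ S → t' ∈ S → (∀ s ∈ S, y ≤ s → x ≤ s) →
      M z ≤ (1 - Lam N S y) * M y + Lam N S x * M x := fun S h1 h2 h3 =>
    superball hyx hEN h1 h2 hAt hty hxt' htE' h3 hAE hAE' hMz hsy hsx
  -- the reference gap
  set m := min (M y) (M x) with hm
  set S0 : Finset ℕ := P.filter (fun s => m < g s ∧ ∀ u ∈ P, y ≤ u → u < x → g u < g s) with hS0
  have hmz : m < M z := lt_of_le_of_lt (min_le_left _ _) hy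
  have hcellP : ∀ u ∈ P, y ≤ u → u < x → g u < M z := fun u _ h1 h2 => hg u h1 h2.le
  have ht0 : t ∈ S0 := by
    rw [hS0, mem_filter]
    exact ⟨htP, by linarith, fun u hu h1 h2 => lt_of_lt_of_le (hcellP u hu h1 h2) hgt⟩
  have ht0' : t' ∈ S0 := by
    rw [hS0, mem_filter]
    exact ⟨htP', by linarith, fun u hu h1 h2 => lt_of_lt_of_le (hcellP u hu h1 h2) hgt'⟩
  have hno0 : ∀ s ∈ S0, y ≤ s → x ≤ s := by
    intro s hs hys
    by_contra hcon
    push Not at hcon
    rw [hS0, mem_filter] at hs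
    exact lt_irrefl _ (hs.2.2 s hs.1 hys hcon)
  have hhas0y : Has S0 y := ⟨⟨t, ht0, hty⟩, t', ht0', by omega⟩
  have hhas0x : Has S0 x := ⟨⟨t, ht0, by omega⟩, t', ht0', hxt'.le⟩
  set K : ℝ := (N / ((N : ℝ) + 1)) * (((x : ℝ) - y) / ((hi S0 y : ℝ) - lo S0 y)) with hK
  -- the sum of the two positions
  have hsumS : ∀ S : Finset ℕ, Has S y → Has S x → (∀ s ∈ S, y ≤ s → x ≤ s) →
      (1 - Lam N S y) + Lam N S x =
        1 + (N / ((N : ℝ) + 1)) * (((x : ℝ) - y) / ((hi S y : ℝ) - lo S y)) := by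
    intro S h1 h2 h3
    have h4 := same_gap_sum h1 h2 hyx.le h3
    unfold Lam
    have h5 : lam S x - lam S y = ((x : ℝ) - y) / ((hi S y : ℝ) - lo S y) := by linarith
    rw [← h5]
    ring
  have hE0 := hsup S0 ht0 ht0' hno0
  have hs0 := hsumS S0 hhas0y hhas0x hno0
  rw [← hK] at hs0
  -- low levels
  have hlow : ∀ v : ℝ, v ≤ m → 1 + K ≤ (1 - Lam N (lev g P v) y) + Lam N (lev g P v) x +
      (N / ((N : ℝ) + 1)) *
        (((lev g P v).filter (fun t => y ≤ t ∧ t < x)).card : ℝ) := by
    intro v hv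
    have hsub : S0 ⊆ lev g P v := by
      intro s hs
      rw [hS0, mem_filter] at hs
      simp only [lev, mem_filter]
      exact ⟨hs.1, by linarith [hs.2.1]⟩
    have h1 := low_level hsub hhas0y hhas0x hyx hno0
    have h2 := mul_le_mul_of_nonneg_left h1 hc0
    unfold Lam
    rw [hK]
    nlinarith
  -- middle levels without points in the cell
  have hmid : ∀ v : ℝ, m < v → v ≤ M z → (∀ s ∈ lev g P v, y ≤ s → x ≤ s) →
      M z ≤ (1 - Lam N (lev g P v) y) * M y + Lam N (lev g P v) x * M x ∧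
      (1 - Lam N (lev g P v) y) + Lam N (lev g P v) x ≤ 1 + K := by
    intro v hv hvz hno
    have ht1 : t ∈ lev g P v := by simp only [lev, mem_filter]; exact ⟨htP, by linarith⟩
    have ht1' : t' ∈ lev g P v := by simp only [lev, mem_filter]; exact ⟨htP', by linarith⟩
    have hh1 : Has (lev g P v) y := ⟨⟨t, ht1, hty⟩, t', ht1', by omega⟩
    have hh2 : Has (lev g P v) x := ⟨⟨t, ht1, by omega⟩, t', ht1', hxt'.le⟩
    refine ⟨hsup _ ht1 ht1' hno, ?_⟩
    rw [hsumS _ hh1 hh2 hno, hK]
    have hsub : lev g P v ⊆ S0 := by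
      intro s hs
      have hs1 := hs
      simp only [lev, mem_filter] at hs
      rw [hS0, mem_filter]
      refine ⟨hs.1, by linarith [hs.2], fun u hu h1 h2 => ?_⟩
      by_contra hcon
      push Not at hcon
      have h3 : u ∈ lev g P v := by
        simp only [lev, mem_filter]; exact ⟨hu, by linarith [hs.2]⟩
      have := hno u h3 h1
      omega
    have hg1 := gap_mono hsub hh1
    have h7 : (lo (lev g P v) y : ℝ) ≤ lo S0 y := by exact_mod_cast hg1.1
    have h8 : (hi S0 y : ℝ) ≤ hi (lev g P v) y := by exact_mod_cast hg1.2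
    have hyx' : (y : ℝ) < x := by exact_mod_cast hyx
    have h9 : ((x : ℝ) - y) / ((hi (lev g P v) y : ℝ) - lo (lev g P v) y) ≤
        ((x : ℝ) - y) / ((hi S0 y : ℝ) - lo S0 y) :=
      div_le_div_of_nonneg_left (by linarith) (gap_pos hhas0y) (by linarith)
    have := mul_le_mul_of_nonneg_left h9 hc0
    linarith
  -- a point in the cell
  have hone : ∀ v : ℝ, ¬ (∀ s ∈ lev g P v, y ≤ s → x ≤ s) →
      (1 : ℝ) ≤ (((lev g P v).filter (fun t => y ≤ t ∧ t < x)).card : ℝ) := by
    intro v hv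
    push Not at hv
    obtain ⟨s, hs, h1, h2⟩ := hv
    have : 0 < ((lev g P v).filter (fun t => y ≤ t ∧ t < x)).card :=
      card_pos.mpr ⟨s, by simp only [mem_filter]; exact ⟨hs, h1, h2⟩⟩
    exact_mod_cast this
  have hL0x := Lam_le (N := N) hhas0x
  have hL0y := le_Lam (N := N) hhas0y
  rcases le_total (M y) (M x) with hle | hle
  · have hmy : m = M y := min_eq_left hle
    rw [hmy] at hlow hmid
    refine level_bound (m₁ := M y) (m₂ := M x) (K := K) D.wnn hle (D.hM y (by omega))
      (D.hM x hx) ?_ ?_ ?_ ?_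
    · intro v _ hv
      rw [if_pos hv, if_pos (hv.trans hle)]
      exact hlow v hv
    · intro v _ hv1 hv2
      rw [if_neg (by linarith), if_pos hv2]
      have hhx : Has (lev g P v) x := D.has hx hxin hv2
      have hd : 0 ≤ M x - M y := by linarith
      by_cases hno : ∀ s ∈ lev g P v, y ≤ s → x ≤ s
      · obtain ⟨h1, h2⟩ := hmid v hv1 (by linarith) hno
        have h3 : (0 : ℝ) ≤ (((lev g P v).filter (fun t => y ≤ t ∧ t < x)).card : ℝ) := by
          positivity
        have h4 := mul_nonneg hc0 h3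
        have h5 := mul_le_mul_of_nonneg_left h2 hMy
        have h6 := mul_nonneg hd h4
        nlinarith
      · have h1 := hone v hno
        have h2 := mul_le_mul_of_nonneg_left h1 hc0
        have h3 := le_Lam (N := N) hhx
        have h4 : Lam N S0 x ≤ Lam N (lev g P v) x + N / ((N : ℝ) + 1) *
          (((lev g P v).filter (fun t => y ≤ t ∧ t < x)).card : ℝ) := by linarith
        have h5 := mul_le_mul_of_nonneg_left h4 hd
        nlinarith
    · intro v _ hv
      rw [if_neg (by linarith), if_neg (by linarith)]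
      have h3 : (0 : ℝ) ≤ (((lev g P v).filter (fun t => y ≤ t ∧ t < x)).card : ℝ) := by
        positivity
      have h4 := mul_nonneg hc0 h3
      linarith
    · intro heq
      rw [← heq] at hE0
      nlinarith
  · have hmy : m = M x := min_eq_right hle
    rw [hmy] at hlow hmid
    refine level_bound (m₁ := M x) (m₂ := M y) (K := K) D.wnn hle (D.hM x hx)
      (D.hM y (by omega)) ?_ ?_ ?_ ?_
    · intro v _ hv
      rw [if_pos hv, if_pos (hv.trans hle)]
      exact hlow v hv
    · intro v _ hv1 hv2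
      rw [if_pos hv2, if_neg (by linarith)]
      have hhy : Has (lev g P v) y := D.has (by omega) hyin hv2
      have hd : 0 ≤ M y - M x := by linarith
      by_cases hno : ∀ s ∈ lev g P v, y ≤ s → x ≤ s
      · obtain ⟨h1, h2⟩ := hmid v hv1 (by linarith) hno
        have h3 : (0 : ℝ) ≤ (((lev g P v).filter (fun t => y ≤ t ∧ t < x)).card : ℝ) := by
          positivity
        have h4 := mul_nonneg hc0 h3
        have h5 := mul_le_mul_of_nonneg_left h2 hMx
        have h6 := mul_nonneg hd h4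
        nlinarith
      · have h1 := hone v hno
        have h2 := mul_le_mul_of_nonneg_left h1 hc0
        have h3 := Lam_le (N := N) hhy
        have h4 : 1 - Lam N S0 y ≤ 1 - Lam N (lev g P v) y + 0 + N / ((N : ℝ) + 1) *
          (((lev g P v).filter (fun t => y ≤ t ∧ t < x)).card : ℝ) := by linarith
        have h5 := mul_le_mul_of_nonneg_left h4 hd
        nlinarith
    · intro v _ hv
      rw [if_neg (by linarith), if_neg (by linarith)]
      have h3 : (0 : ℝ) ≤ (((lev g P v).filter (fun t => y ≤ t ∧ t < x)).card : ℝ) := by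
        positivity
      have h4 := mul_nonneg hc0 h3
      linarith
    · intro heq
      rw [← heq] at hE0
      nlinarith

/-- **The cell inequality.** -/
lemma Data.cell (D : Data N g M P V w) {y z x : ℕ} (hyz : y < z) (hzx : z < x)
    (hx : x ≤ N) (hmax : ∀ i, y ≤ i → i ≤ x → M i ≤ M z) (hy : M y < M z) (hx' : M x < M z)
    (hyin : Inner N M y) (hxin : Inner N M x) :
    M z ≤ (M y - Phi N g M P V w y) + Phi N g M P V w x +
      (N / ((N : ℝ) + 1)) * (Q g P x - Q g P y) := by
  by_cases hg : ∀ i, y ≤ i → i ≤ x → g i < M z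
  · exact D.cell_detached hyz hzx hx hmax hy hx' hg hyin hxin
  · push Not at hg
    obtain ⟨i, h1, h2, h3⟩ := hg
    have hgy := g_le D.max (show y ≤ N by omega)
    have hgx := g_le D.max hx
    have hyi : y < i := by
      rcases Nat.eq_or_lt_of_le h1 with h4 | h4
      · subst h4; linarith
      · exact h4
    have hix : i < x := by
      rcases Nat.eq_or_lt_of_le h2 with h4 | h4
      · subst h4; linarith
      · exact h4
    obtain ⟨s, hs, h4, h5, h6⟩ := D.tops.between hyi hix hx (by linarith) (by linarith)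
    have h7 := g_le D.max (show s ≤ N by omega)
    have h8 := hmax s h4.le h5.le
    have h9 : g s = M z := by linarith
    have := D.cell_attached hs h4 h5 hx hyin hxin (by linarith) (by linarith)
    linarith

/-- the estimate at the left wall -/
lemma Data.wall_left (D : Data N g M P V w) {s : ℕ} (hs : s ∈ P) (hmax : g 0 ≤ g s) :
    g s / ((N : ℝ) + 1) + (N / ((N : ℝ) + 1)) * g 0 ≤
      M 0 + 2 * (N / ((N : ℝ) + 1)) * Q g P s := by
  have hsN := D.sub s hs
  have hsNR : (s : ℝ) ≤ N := by exact_mod_cast hsN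
  have hs0 : (0 : ℝ) ≤ (s : ℝ) := by positivity
  have hN1 : (0 : ℝ) < (N : ℝ) + 1 := by positivity
  have hI0 : I N 0 s = Icc 0 s := by
    ext i; simp only [I, mem_Icc]; omega
  have hle := D.max.le 0 (by omega) s
  have hcard : ((I N 0 s).card : ℝ) = s + 1 := by
    rw [hI0, Nat.card_Icc]; push_cast; ring
  rw [hcard] at hle
  have hM0 := D.max.M_nonneg (show 0 ≤ N by omega)
  have hQ : 0 ≤ Q g P s := sum_nonneg fun i _ => D.max.nonneg i
  have hc0 := c_nonneg N
  have hc1 : N / ((N : ℝ) + 1) = 1 - 1 / ((N : ℝ) + 1) := by field_simp; ring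
  by_cases hmon : ∀ i, i ≤ s → g 0 ≤ g i
  · have h1 : (s : ℝ) * g 0 + g s ≤ ∑ i ∈ I N 0 s, g i := by
      rw [hI0]
      have h2 : Icc 0 s = insert s (range s) := by
        ext i; simp only [mem_insert, mem_Icc, mem_range]; omega
      rw [h2, sum_insert (by simp)]
      have h3 := sum_le_sum (s := range s) (f := fun _ => g 0) (g := g)
        (fun i hi => hmon i (by rw [mem_range] at hi; omega))
      rw [sum_const, card_range, nsmul_eq_mul] at h3
      linarith
    -- `M 0 ≥ g 0 + (g s - g 0) / (s + 1)`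
    have h2 : g 0 + (g s - g 0) / ((N : ℝ) + 1) ≤ M 0 := by
      have h3 : (g s - g 0) / ((N : ℝ) + 1) ≤ (g s - g 0) / ((s : ℝ) + 1) :=
        div_le_div_of_nonneg_left (by linarith) (by linarith) (by linarith)
      have h4 : g 0 + (g s - g 0) / ((s : ℝ) + 1) ≤ M 0 := by
        have h5 : (0 : ℝ) < (s : ℝ) + 1 := by linarith
        have h6 : g 0 + (g s - g 0) / ((s : ℝ) + 1) = ((s : ℝ) * g 0 + g s) / ((s : ℝ) + 1) := by
          field_simp; ring
        rw [h6, div_le_iff₀ h5]
        linarith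
      linarith
    have h3 : g s / ((N : ℝ) + 1) + (N / ((N : ℝ) + 1)) * g 0 =
        g 0 + (g s - g 0) / ((N : ℝ) + 1) := by rw [hc1]; ring
    rw [h3]
    have := mul_nonneg hc0 hQ
    linarith
  · push Not at hmon
    obtain ⟨i, his, hi⟩ := hmon
    have hi0 : 0 < i := by
      rcases Nat.eq_zero_or_pos i with h0 | h0
      · subst h0; exact absurd hi (lt_irrefl _)
      · exact h0
    obtain ⟨u, hu, h1, h2⟩ := D.tops.left hi0 (show i ≤ N by omega) hi
    have h3 : g 0 ≤ Q g P s := by
      have h4 : g u ≤ Q g P s := single_le_sum (f := g) (fun i _ => D.max.nonneg i)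
        (by simp only [mem_filter]; exact ⟨hu, by omega⟩)
      linarith
    have h4 : g s / ((N : ℝ) + 1) ≤ M 0 := by
      rw [div_le_iff₀ hN1]
      have h5 : g s ≤ ∑ i ∈ I N 0 s, g i :=
        single_le_sum (f := g) (fun i _ => D.max.nonneg i) (by rw [hI0]; simp)
      have h6 : M 0 * ((s : ℝ) + 1) ≤ M 0 * ((N : ℝ) + 1) :=
        mul_le_mul_of_nonneg_left (by linarith) hM0
      linarith
    have h5 := mul_le_mul_of_nonneg_left h3 hc0
    have h6 := mul_nonneg hc0 hQ
    nlinarith

/-- the estimate at the right wall -/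
lemma Data.wall_right (D : Data N g M P V w) {s : ℕ} (hs : s ∈ P) (hmax : g N ≤ g s) :
    g s / ((N : ℝ) + 1) + (N / ((N : ℝ) + 1)) * g N ≤
      M N + 2 * (N / ((N : ℝ) + 1)) * ∑ t ∈ P.filter (fun t => s < t), g t := by
  have hsN := D.sub s hs
  have hsNR : (s : ℝ) ≤ N := by exact_mod_cast hsN
  have hs0 : (0 : ℝ) ≤ (s : ℝ) := by positivity
  have hN1 : (0 : ℝ) < (N : ℝ) + 1 := by positivity
  have hI0 : I N N (N - s) = Icc s N := by
    ext i; simp only [I, mem_Icc]; omega
  have hle := D.max.le N le_rfl (N - s)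
  have hcard : ((I N N (N - s)).card : ℝ) = N - s + 1 := by
    rw [hI0, Nat.card_Icc, Nat.cast_sub (by omega)]; push_cast; ring
  rw [hcard] at hle
  have hM0 := D.max.M_nonneg (show N ≤ N by omega)
  have hQ : 0 ≤ ∑ t ∈ P.filter (fun t => s < t), g t := sum_nonneg fun i _ => D.max.nonneg i
  have hc0 := c_nonneg N
  have hc1 : N / ((N : ℝ) + 1) = 1 - 1 / ((N : ℝ) + 1) := by field_simp; ring
  by_cases hmon : ∀ i, s ≤ i → i ≤ N → g N ≤ g i
  · have h1 : ((N : ℝ) - s) * g N + g s ≤ ∑ i ∈ I N N (N - s), g i := by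
      rw [hI0]
      have h2 : Icc s N = insert s (Ioc s N) := by
        ext i; simp only [mem_insert, mem_Icc, mem_Ioc]; omega
      rw [h2, sum_insert (by simp)]
      have h3 := sum_le_sum (s := Ioc s N) (f := fun _ => g N) (g := g)
        (fun i hi => by rw [mem_Ioc] at hi; exact hmon i (by omega) hi.2)
      rw [sum_const, Nat.card_Ioc, nsmul_eq_mul, Nat.cast_sub hsN] at h3
      linarith
    have h2 : g N + (g s - g N) / ((N : ℝ) + 1) ≤ M N := by
      have h3 : (g s - g N) / ((N : ℝ) + 1) ≤ (g s - g N) / ((N : ℝ) - s + 1) :=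
        div_le_div_of_nonneg_left (by linarith) (by linarith) (by linarith)
      have h4 : g N + (g s - g N) / ((N : ℝ) - s + 1) ≤ M N := by
        have h5 : (0 : ℝ) < (N : ℝ) - s + 1 := by linarith
        have h6 : g N + (g s - g N) / ((N : ℝ) - s + 1) =
            (((N : ℝ) - s) * g N + g s) / ((N : ℝ) - s + 1) := by
          field_simp; ring
        rw [h6, div_le_iff₀ h5]
        linarith
      linarith
    have h3 : g s / ((N : ℝ) + 1) + (N / ((N : ℝ) + 1)) * g N =
        g N + (g s - g N) / ((N : ℝ) + 1) := by rw [hc1]; ring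
    rw [h3]
    have := mul_nonneg hc0 hQ
    linarith
  · push Not at hmon
    obtain ⟨i, his, hiN, hi⟩ := hmon
    have hi0 : i < N := by
      rcases Nat.eq_or_lt_of_le hiN with h0 | h0
      · subst h0; exact absurd hi (lt_irrefl _)
      · exact h0
    obtain ⟨u, hu, h1, _, h2⟩ := D.tops.right hi0 le_rfl hi
    have h3 : g N ≤ ∑ t ∈ P.filter (fun t => s < t), g t := by
      have h4 : g u ≤ ∑ t ∈ P.filter (fun t => s < t), g t :=
        single_le_sum (f := g) (fun i _ => D.max.nonneg i)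
        (by simp only [mem_filter]; exact ⟨hu, by omega⟩)
      linarith
    have h4 : g s / ((N : ℝ) + 1) ≤ M N := by
      rw [div_le_iff₀ hN1]
      have h5 : g s ≤ ∑ i ∈ I N N (N - s), g i :=
        single_le_sum (f := g) (fun i _ => D.max.nonneg i) (by rw [hI0]; simp [hsN])
      have h6 : M N * ((N : ℝ) - s + 1) ≤ M N * ((N : ℝ) + 1) :=
        mul_le_mul_of_nonneg_left (by linarith) hM0
      linarith
    have h5 := mul_le_mul_of_nonneg_left h3 hc0
    have h6 := mul_nonneg hc0 hQ
    nlinarith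

end Pool.Agent.Helper37_EM
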