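import Mathlib

/-!
# Relative positions in the gaps of a finite set, and the two superball inequality
-/

set_option autoImplicit false

open Finset

namespace Pool.Agent.Helper37_EM

/-- the largest element of `S` below `x` -/
def lo (S : Finset ℕ) (x : ℕ) : ℕ := (S.filter (· < x)).sup id

/-- the smallest element of `S` which is at least `x` -/
def hi (S : Finset ℕ) (x : ℕ) : ℕ :=
  if h : (S.filter (x ≤ ·)).Nonempty then (S.filter (x ≤ ·)).min' h else 0

/-- `S` has a point below `x` and a point above or at `x` -/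
def Has (S : Finset ℕ) (x : ℕ) : Prop := (∃ t ∈ S, t < x) ∧ ∃ t ∈ S, x ≤ t

/-- relative position of `x` in its gap of `S` -/
noncomputable def lam (S : Finset ℕ) (x : ℕ) : ℝ :=
  ((x : ℝ) - lo S x) / ((hi S x : ℝ) - lo S x)

variable {S T : Finset ℕ} {x y : ℕ}

lemma lo_mem (h : Has S x) : lo S x ∈ S ∧ lo S x < x := by
  have h1 : (S.filter (· < x)).Nonempty := by
    obtain ⟨⟨t, ht, htx⟩, _⟩ := h
    exact ⟨t, by simp [ht, htx]⟩
  have h2 : lo S x ∈ S.filter (· < x) := by
    unfold lo
    obtain ⟨t, ht, h3⟩ := exists_mem_eq_sup _ h1 id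
    rw [h3]; exact ht
  simpa using h2

lemma le_lo {t : ℕ} (ht : t ∈ S) (htx : t < x) : t ≤ lo S x := by
  unfold lo
  exact le_sup (f := id) (by simp [ht, htx])

lemma hi_mem (h : Has S x) : hi S x ∈ S ∧ x ≤ hi S x := by
  have h1 : (S.filter (x ≤ ·)).Nonempty := by
    obtain ⟨_, t, ht, htx⟩ := h
    exact ⟨t, by simp [ht, htx]⟩
  have h2 : hi S x ∈ S.filter (x ≤ ·) := by
    unfold hi
    rw [dif_pos h1]
    exact min'_mem _ h1
  simpa using h2

lemma hi_le {t : ℕ} (ht : t ∈ S) (htx : x ≤ t) : hi S x ≤ t := by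
  have h1 : (S.filter (x ≤ ·)).Nonempty := ⟨t, by simp [ht, htx]⟩
  unfold hi
  rw [dif_pos h1]
  exact min'_le _ _ (by simp [ht, htx])

lemma gap_pos (h : Has S x) : (0 : ℝ) < (hi S x : ℝ) - lo S x := by
  have h1 := (lo_mem h).2
  have h2 := (hi_mem h).2
  have : (lo S x : ℝ) < hi S x := by exact_mod_cast (lt_of_lt_of_le h1 h2)
  linarith

lemma lam_nonneg (h : Has S x) : 0 ≤ lam S x := by
  have h1 := (lo_mem h).2
  have : (lo S x : ℝ) < x := by exact_mod_cast h1
  exact div_nonneg (by linarith) (gap_pos h).le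

lemma lam_le_one (h : Has S x) : lam S x ≤ 1 := by
  have h1 := (hi_mem h).2
  have : (x : ℝ) ≤ hi S x := by exact_mod_cast h1
  unfold lam
  rw [div_le_one (gap_pos h)]
  linarith

lemma one_sub_lam (h : Has S x) :
    1 - lam S x = ((hi S x : ℝ) - x) / ((hi S x : ℝ) - lo S x) := by
  unfold lam
  have := (gap_pos h).ne'
  field_simp
  ring

/-- two points in the same gap -/
lemma same_gap (hy : Has S y) (hx : Has S x) (hyx : y ≤ x) (hno : ∀ t ∈ S, y ≤ t → x ≤ t) :
    lo S x = lo S y ∧ hi S x = hi S y := by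
  constructor
  · apply le_antisymm
    · refine le_lo (lo_mem hx).1 ?_
      by_contra hcon
      push Not at hcon
      have := hno _ (lo_mem hx).1 hcon
      have := (lo_mem hx).2
      omega
    · exact le_lo (lo_mem hy).1 (lt_of_lt_of_le (lo_mem hy).2 hyx)
  · apply le_antisymm
    · exact hi_le (hi_mem hy).1 (hno _ (hi_mem hy).1 (hi_mem hy).2)
    · exact hi_le (hi_mem hx).1 (le_trans hyx (hi_mem hx).2)

lemma same_gap_sum (hy : Has S y) (hx : Has S x) (hyx : y ≤ x)
    (hno : ∀ t ∈ S, y ≤ t → x ≤ t) :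
    (1 - lam S y) + lam S x = 1 + ((x : ℝ) - y) / ((hi S y : ℝ) - lo S y) := by
  obtain ⟨h1, h2⟩ := same_gap hy hx hyx hno
  rw [one_sub_lam hy]
  unfold lam
  rw [h1, h2]
  have := (gap_pos hy).ne'
  field_simp
  ring

/-- a gap of a larger set is contained in a gap of the smaller set -/
lemma gap_mono (hTS : T ⊆ S) (hT : Has T x) : lo T x ≤ lo S x ∧ hi S x ≤ hi T x :=
  ⟨le_lo (hTS (lo_mem hT).1) (lo_mem hT).2, hi_le (hTS (hi_mem hT).1) (hi_mem hT).2⟩

lemma Has.mono (hTS : T ⊆ S) (hT : Has T x) : Has S x := by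
  obtain ⟨⟨t, ht, h1⟩, t', ht', h2⟩ := hT
  exact ⟨⟨t, hTS ht, h1⟩, t', hTS ht', h2⟩

/-- **Low levels.** `T ⊆ S`, no point of `T` in `[y, x)`. -/
lemma low_level (hTS : T ⊆ S) (hy : Has T y) (hx : Has T x) (hyx : y < x)
    (hno : ∀ t ∈ T, y ≤ t → x ≤ t) :
    1 + ((x : ℝ) - y) / ((hi T y : ℝ) - lo T y) ≤
      (1 - lam S y) + lam S x + ((S.filter (fun t => y ≤ t ∧ t < x)).card : ℝ) := by
  have hyS := hy.mono hTS
  have hxS := hx.mono hTS
  obtain ⟨hg1, hg2⟩ := same_gap hy hx hyx.le hno
  have hgy := gap_mono hTS hy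
  have hgx := gap_mono hTS hx
  rw [hg1, hg2] at hgx
  have hTp := gap_pos hy
  have hyx' : (y : ℝ) < x := by exact_mod_cast hyx
  by_cases hS : ∃ t ∈ S, y ≤ t ∧ t < x
  · -- `S` has a point in the cell
    obtain ⟨s, hs, hys, hsx⟩ := hS
    have h1 : hi S y ≤ s := hi_le hs hys
    have h2 : s ≤ lo S x := le_lo hs hsx
    have h3 := hi_mem hyS
    have h4 := lo_mem hxS
    have h5 : ((hi S y : ℝ) - y) / ((hi T y : ℝ) - lo T y) ≤ 1 - lam S y := by
      rw [one_sub_lam hyS]
      have h6 : (y : ℝ) ≤ hi S y := by exact_mod_cast h3.2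
      have h7 : (lo T y : ℝ) ≤ lo S y := by exact_mod_cast hgy.1
      have h8 : (hi S y : ℝ) ≤ hi T y := by exact_mod_cast hgy.2
      exact div_le_div_of_nonneg_left (by linarith) (gap_pos hyS) (by linarith)
    have h6 : ((x : ℝ) - lo S x) / ((hi T y : ℝ) - lo T y) ≤ lam S x := by
      unfold lam
      have h6 : (lo S x : ℝ) ≤ x := by exact_mod_cast h4.2.le
      have h7 : (lo T y : ℝ) ≤ lo S x := by exact_mod_cast hgx.1
      have h8 : (hi S x : ℝ) ≤ hi T y := by exact_mod_cast hgx.2
      exact div_le_div_of_nonneg_left (by linarith) (gap_pos hxS) (by linarith)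
    rcases Nat.eq_or_lt_of_le (h1.trans h2) with h7 | h7
    · -- one point
      have h8 : (1 : ℝ) ≤ ((S.filter (fun t => y ≤ t ∧ t < x)).card : ℝ) := by
        have : 0 < (S.filter (fun t => y ≤ t ∧ t < x)).card :=
          card_pos.mpr ⟨s, by simp [hs, hys, hsx]⟩
        exact_mod_cast this
      have h9 : ((hi S y : ℝ) - y) / ((hi T y : ℝ) - lo T y) +
          ((x : ℝ) - lo S x) / ((hi T y : ℝ) - lo T y) =
          ((x : ℝ) - y) / ((hi T y : ℝ) - lo T y) := by
        rw [← h7]; ring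
      linarith
    · -- two points
      have h8 : (2 : ℝ) ≤ ((S.filter (fun t => y ≤ t ∧ t < x)).card : ℝ) := by
        have : ({hi S y, lo S x} : Finset ℕ) ⊆ S.filter (fun t => y ≤ t ∧ t < x) := by
          intro t ht
          simp only [mem_insert, mem_singleton] at ht
          rcases ht with ht | ht
          · rw [ht]; simp only [mem_filter]; exact ⟨h3.1, h3.2, by omega⟩
          · rw [ht]; simp only [mem_filter]; exact ⟨h4.1, by omega, h4.2⟩
        have h9 := card_le_card this
        rw [card_pair h7.ne] at h9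
        exact_mod_cast h9
      have h9 : ((x : ℝ) - y) / ((hi T y : ℝ) - lo T y) ≤ 1 := by
        rw [div_le_one hTp]
        have h10 := (lo_mem hy).2
        have h11 := (hi_mem hx).2
        rw [hg2] at h11
        have h12 : (lo T y : ℝ) < y := by exact_mod_cast h10
        have h13 : (x : ℝ) ≤ hi T y := by exact_mod_cast h11
        linarith
      have h10 := lam_le_one hyS
      have h11 := lam_nonneg hxS
      linarith
  · push Not at hS
    have h1 : ∀ t ∈ S, y ≤ t → x ≤ t := fun t ht hyt => hS t ht hyt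
    rw [same_gap_sum hyS hxS hyx.le h1]
    have h2 : ((x : ℝ) - y) / ((hi T y : ℝ) - lo T y) ≤
        ((x : ℝ) - y) / ((hi S y : ℝ) - lo S y) := by
      have h7 : (lo T y : ℝ) ≤ lo S y := by exact_mod_cast hgy.1
      have h8 : (hi S y : ℝ) ≤ hi T y := by exact_mod_cast hgy.2
      exact div_le_div_of_nonneg_left (by linarith) (gap_pos hyS) (by linarith)
    have h3 : (0 : ℝ) ≤ ((S.filter (fun t => y ≤ t ∧ t < x)).card : ℝ) := by positivity
    linarith

/-- **Attached cells, right half.** `s ∈ S` with `s < x`; all points of `S` are at most `N`. -/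
lemma right_half {N s : ℕ} (hx : Has S x) (hs : s ∈ S) (hsx : s < x) (hN : ∀ t ∈ S, t ≤ N) :
    ((x : ℝ) - s) / N ≤ lam S x + ((S.filter (fun t => s < t ∧ t < x)).card : ℝ) := by
  have h1 := lo_mem hx
  have h2 := hi_mem hx
  have h3 := hN _ h2.1
  have hxN : x ≤ N := h2.2.trans h3
  have hN0 : (0 : ℝ) < N := by
    have : 0 < N := by omega
    exact_mod_cast this
  have hc : (0 : ℝ) ≤ ((S.filter (fun t => s < t ∧ t < x)).card : ℝ) := by positivity
  rcases Nat.eq_or_lt_of_le (le_lo hs hsx) with h4 | h4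
  · have h5 : ((x : ℝ) - s) / N ≤ lam S x := by
      unfold lam
      rw [← h4]
      have h6 : (s : ℝ) < x := by exact_mod_cast hsx
      have h7 : (hi S x : ℝ) ≤ N := by exact_mod_cast h3
      have h8 : (0 : ℝ) ≤ (s : ℝ) := by positivity
      have h9 := gap_pos hx
      rw [← h4] at h9
      exact div_le_div_of_nonneg_left (by linarith) h9 (by linarith)
    linarith
  · have h5 : (1 : ℝ) ≤ ((S.filter (fun t => s < t ∧ t < x)).card : ℝ) := by
      have : 0 < (S.filter (fun t => s < t ∧ t < x)).card :=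
        card_pos.mpr ⟨lo S x, by simp only [mem_filter]; exact ⟨h1.1, h4, h1.2⟩⟩
      exact_mod_cast this
    have h6 : ((x : ℝ) - s) / N ≤ 1 := by
      rw [div_le_one hN0]
      have h7 : (x : ℝ) ≤ N := by exact_mod_cast hxN
      have h8 : (0 : ℝ) ≤ (s : ℝ) := by positivity
      linarith
    have := lam_nonneg hx
    linarith

/-- **Attached cells, left half.** -/
lemma left_half {N s : ℕ} (hy : Has S y) (hs : s ∈ S) (hys : y < s) (hN : ∀ t ∈ S, t ≤ N) :
    ((s : ℝ) - y) / N ≤ (1 - lam S y) + ((S.filter (fun t => y ≤ t ∧ t < s)).card : ℝ) := by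
  have h1 := lo_mem hy
  have h2 := hi_mem hy
  have h3 := hN _ hs
  have hN0 : (0 : ℝ) < N := by
    have : 0 < N := by omega
    exact_mod_cast this
  have hc : (0 : ℝ) ≤ ((S.filter (fun t => y ≤ t ∧ t < s)).card : ℝ) := by positivity
  rcases Nat.eq_or_lt_of_le (hi_le hs hys.le) with h4 | h4
  · have h5 : ((s : ℝ) - y) / N ≤ 1 - lam S y := by
      rw [one_sub_lam hy, h4]
      have h6 : (y : ℝ) < s := by exact_mod_cast hys
      have h7 : (s : ℝ) ≤ N := by exact_mod_cast h3
      have h8 : (0 : ℝ) ≤ (lo S y : ℝ) := by positivity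
      have h9 := gap_pos hy
      rw [h4] at h9
      exact div_le_div_of_nonneg_left (by linarith) h9 (by linarith)
    linarith
  · have h5 : (1 : ℝ) ≤ ((S.filter (fun t => y ≤ t ∧ t < s)).card : ℝ) := by
      have : 0 < (S.filter (fun t => y ≤ t ∧ t < s)).card :=
        card_pos.mpr ⟨hi S y, by simp only [mem_filter]; exact ⟨h2.1, h2.2, h4⟩⟩
      exact_mod_cast this
    have h6 : ((s : ℝ) - y) / N ≤ 1 := by
      rw [div_le_one hN0]
      have h7 : (s : ℝ) ≤ N := by exact_mod_cast h3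
      have h8 : (0 : ℝ) ≤ (y : ℝ) := by positivity
      linarith
    have := lam_le_one hy
    linarith

/-- **The two superball inequality**, continuous form: the ball `(A, E)` contains the gap
`(c, d)`, the cell `(y, x)` lies in the gap and contains the centre of the ball. -/
lemma superball_real {A E c d y x h m m' : ℝ} (hAc : A ≤ c) (hdE : d ≤ E) (hcd : c < d)
    (hy : 2 * y ≤ A + E) (hx : A + E ≤ 2 * x) (hyE : y < E) (hxA : A < x)
    (hcy : c ≤ y) (hxd : x ≤ d) (hh : 0 ≤ h)
    (hm : h * (E - A) ≤ m * (2 * (E - y))) (hm' : h * (E - A) ≤ m' * (2 * (x - A))) :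
    h ≤ (d - y) / (d - c) * m + (x - c) / (d - c) * m' := by
  have hg : 0 < d - c := by linarith
  have hE : 0 < 2 * (E - y) := by linarith
  have hA : 0 < 2 * (x - A) := by linarith
  have h1 : h * (E - A) / (2 * (E - y)) ≤ m := by rw [div_le_iff₀ hE]; exact hm
  have h2 : h * (E - A) / (2 * (x - A)) ≤ m' := by rw [div_le_iff₀ hA]; exact hm'
  have h3 : 0 ≤ (d - y) / (d - c) := div_nonneg (by linarith) hg.le
  have h4 : 0 ≤ (x - c) / (d - c) := div_nonneg (by linarith) hg.le
  have h5 := mul_le_mul_of_nonneg_left h1 h3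
  have h6 := mul_le_mul_of_nonneg_left h2 h4
  have h7 : h ≤ (d - y) / (d - c) * (h * (E - A) / (2 * (E - y))) +
      (x - c) / (d - c) * (h * (E - A) / (2 * (x - A))) := by
    have key : (d - c) * (2 * (E - y)) * (2 * (x - A)) ≤
        (d - y) * (E - A) * (2 * (x - A)) + (x - c) * (E - A) * (2 * (E - y)) := by
      -- with `R = (E - A) / 2`, `p = (A + E) / 2 - y`, `q = x - (A + E) / 2`
      have e1 : 0 ≤ (E - A) * ((A + E) - 2 * y) * (E - d) :=
        mul_nonneg (mul_nonneg (by linarith) (by linarith)) (by linarith)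
      have e2 : 0 ≤ (E - A) * (2 * x - (A + E)) * (c - A) :=
        mul_nonneg (mul_nonneg (by linarith) (by linarith)) (by linarith)
      have e3 : 0 ≤ ((A + E) - 2 * y) * (2 * x - (A + E)) * ((E - d) + (c - A)) :=
        mul_nonneg (mul_nonneg (by linarith) (by linarith)) (by linarith)
      nlinarith
    have e4 : (d - y) / (d - c) * (h * (E - A) / (2 * (E - y))) +
      (x - c) / (d - c) * (h * (E - A) / (2 * (x - A))) =
      h * ((d - y) * (E - A) * (2 * (x - A)) + (x - c) * (E - A) * (2 * (E - y))) /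
        ((d - c) * (2 * (E - y)) * (2 * (x - A))) := by
      have hE' : E - y ≠ 0 := by intro h0; linarith
      have hA' : x - A ≠ 0 := by intro h0; linarith
      have hg' : d - c ≠ 0 := hg.ne'
      field_simp
    rw [e4, le_div_iff₀ (by positivity)]
    exact mul_le_mul_of_nonneg_left key hh
  linarith

end Pool.Agent.Helper37_EM
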