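import Pool.Agent.Helper37_EM.Peaks
import Pool.Agent.Helper51_Max.Graph

/-!
# The path graph
-/

set_option autoImplicit false

namespace Pool.Agent.Helper37_EM

open Pool.Agent.Helper51_Max
open SimpleGraph (pathGraph)
open Finset (sum_congr sum_le_sum mem_Ico univ sum_sub_distrib sum_const sum_map mem_map mem_filter mem_univ)

variable {N : ℕ}

/-- `t` is the left end of a plateau at which `u` has a local maximum -/
def IsPeak {n : ℕ} (u : Fin n → ℝ) (t : Fin n) : Prop :=
  (∀ s : Fin n, s.val + 1 = t.val → u s < u t) ∧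
    ∀ k : Fin n, t < k → (∀ j, t < j → j < k → u j = u t) → u k ≤ u t

lemma isMax_ext (f : Fin (N + 1) → ℝ) (m : ℝ) (hm : ∀ v, m ≤ |f v|) :
    IsMax N (Helper51_Max.ext (fun v => |f v| - m))
      (Helper51_Max.ext (fun v => maximal (pathGraph (N + 1)) f v - m)) := by
  set g : ℕ → ℝ := Helper51_Max.ext (fun v => |f v| - m) with hg
  set M : ℕ → ℝ := Helper51_Max.ext (fun v => maximal (pathGraph (N + 1)) f v - m) with hM
  have hcard : ∀ v r, (0 : ℝ) < (Helper51_Max.ball (pathGraph (N + 1)) v r).card := fun v r => by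
    exact_mod_cast ball_card_pos (pathGraph (N + 1)) v r
  have hsum : ∀ v : Fin (N + 1), ∀ r, ∑ i ∈ I N v.val r, g i =
      ∑ w ∈ Helper51_Max.ball (pathGraph (N + 1)) v r, |f w| - m * (Helper51_Max.ball (pathGraph (N + 1)) v r).card := by
    intro v r
    rw [hg, ← sum_ball, sum_sub_distrib, sum_const, nsmul_eq_mul, mul_comm m]
  refine ⟨?_, ?_, ?_⟩
  · intro i
    rw [hg]; unfold Helper51_Max.ext
    split_ifs with h
    · linarith [hm ⟨i, h⟩]
    · exact le_rfl
  · intro v hv r
    have h0 := hsum ⟨v, by omega⟩ r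
    have h1 := avg_le_maximal (pathGraph (N + 1)) f ⟨v, by omega⟩ r
    have h2 : M v = maximal (pathGraph (N + 1)) f ⟨v, by omega⟩ - m := by
      rw [hM]; unfold Helper51_Max.ext; rw [dif_pos (by omega)]
    rw [h0, h2, ← card_ball ⟨v, by omega⟩ r]
    rw [div_le_iff₀ (hcard _ _)] at h1
    linarith
  · intro v hv
    obtain ⟨r, hr⟩ := exists_maximal (pathGraph (N + 1)) f ⟨v, by omega⟩
    refine ⟨r, ?_⟩
    have h0 := hsum ⟨v, by omega⟩ r
    have h2 : M v = maximal (pathGraph (N + 1)) f ⟨v, by omega⟩ - m := by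
      rw [hM]; unfold Helper51_Max.ext; rw [dif_pos (by omega)]
    rw [h0, h2, ← card_ball ⟨v, by omega⟩ r, ← hr]
    have := (hcard ⟨v, by omega⟩ r).ne'
    field_simp

lemma ext_sub (F : Fin (N + 1) → ℝ) (m : ℝ) {i : ℕ} (hi : i < N + 1) :
    Helper51_Max.ext (fun v => F v - m) i = F ⟨i, hi⟩ - m := by
  unfold Helper51_Max.ext; rw [dif_pos hi]

lemma var_ext (f : Fin (N + 1) → ℝ) (m : ℝ) :
    var (Helper51_Max.ext (fun v => maximal (pathGraph (N + 1)) f v - m)) 0 N =
      variation (pathGraph (N + 1)) (maximal (pathGraph (N + 1)) f) := by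
  rw [variation_path]
  unfold var
  refine sum_congr rfl fun v hv => ?_
  rw [mem_Ico] at hv
  unfold Helper51_Max.ext
  rw [dif_pos (by omega), dif_pos (by omega), dif_pos (by omega), dif_pos (by omega)]
  congr 1; ring

lemma var_abs_ext (f : Fin (N + 1) → ℝ) (m : ℝ) :
    var (Helper51_Max.ext (fun v => |f v| - m)) 0 N ≤ variation (pathGraph (N + 1)) f := by
  rw [variation_path]
  unfold var
  refine sum_le_sum fun v hv => ?_
  rw [mem_Ico] at hv
  unfold Helper51_Max.ext
  rw [dif_pos (by omega), dif_pos (by omega), dif_pos (by omega), dif_pos (by omega)]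
  have h5 := abs_abs_sub_abs_le_abs_sub (f ⟨v, by omega⟩) (f ⟨v + 1, by omega⟩)
  have h6 : |f ⟨v, by omega⟩| - m - (|f ⟨v + 1, by omega⟩| - m) =
    |f ⟨v, by omega⟩| - |f ⟨v + 1, by omega⟩| := by ring
  rw [h6]
  exact h5

/-- functions with equal minima on the path graph -/
theorem equal_minima (n : ℕ) (f : Fin n → ℝ) (m : ℝ) (hm : ∀ v, m ≤ |f v|)
    (hdip : ∀ i j k : Fin n, i < j → j < k → |f j| < |f i| → |f j| < |f k| →
      ∃ l, i < l ∧ l < k ∧ |f l| = m) :
    variation (pathGraph n) (maximal (pathGraph n) f) ≤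
      (1 - 1 / (n : ℝ)) * variation (pathGraph n) f := by
  rcases n with _ | N
  · rw [variation_zero, variation_zero]; simp
  have h1 := main_equal_minima (isMax_ext f m hm) (by
    intro i j k hij hjk hk h2 h3
    rw [ext_sub _ _ (show j < N + 1 by omega)] at h2 h3
    rw [ext_sub _ _ (show i < N + 1 by omega)] at h2
    rw [ext_sub _ _ (show k < N + 1 by omega)] at h3
    obtain ⟨l, h4, h5, h6⟩ := hdip ⟨i, by omega⟩ ⟨j, by omega⟩ ⟨k, by omega⟩
      (Fin.lt_def.mpr hij) (Fin.lt_def.mpr hjk) (by linarith) (by linarith)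
    refine ⟨l.val, Fin.lt_def.mp h4, Fin.lt_def.mp h5, ?_⟩
    rw [ext_sub _ _ l.isLt]
    simp [h6])
  rw [var_ext] at h1
  have h2 := var_abs_ext f m
  have h3 := mul_le_mul_of_nonneg_left h2 (c_nonneg N)
  have h4 : (1 - 1 / (((N + 1 : ℕ)) : ℝ)) = N / ((N : ℝ) + 1) := by
    push_cast; field_simp; ring
  rw [h4]
  exact h1.trans h3

open Classical in
/-- the general inequality on the path graph -/
theorem general (N : ℕ) (f : Fin (N + 1) → ℝ) (m : ℝ) (hm : ∀ v, m ≤ |f v|) :
    variation (pathGraph (N + 1)) (maximal (pathGraph (N + 1)) f) ≤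
      (1 - 1 / (((N + 1 : ℕ)) : ℝ)) *
        (2 * ∑ t ∈ univ.filter (IsPeak fun v => |f v|), (|f t| - m) -
          (|f 0| - m) - (|f (Fin.last N)| - m)) := by
  have h1 := main_peaks (isMax_ext f m hm)
  rw [var_ext] at h1
  have h4 : (1 - 1 / (((N + 1 : ℕ)) : ℝ)) = N / ((N : ℝ) + 1) := by
    push_cast; field_simp; ring
  rw [h4]
  have h5 : Helper51_Max.ext (fun v => |f v| - m) 0 = |f 0| - m := ext_sub _ _ (Nat.succ_pos N)
  have h6 : Helper51_Max.ext (fun v => |f v| - m) N = |f (Fin.last N)| - m := ext_sub _ _ (Nat.lt_succ_self N)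
  have h7 : QT (Helper51_Max.ext (fun v => |f v| - m)) (peaks N (Helper51_Max.ext (fun v => |f v| - m))) =
      ∑ t ∈ univ.filter (IsPeak fun v => |f v|), (|f t| - m) := by
    unfold QT
    have h8 : peaks N (Helper51_Max.ext (fun v => |f v| - m)) =
        (univ.filter (IsPeak fun v => |f v|)).map Fin.valEmbedding := by
      ext i
      rw [mem_peaks]
      simp only [mem_map, mem_filter, mem_univ, true_and, Fin.valEmbedding_apply]
      constructor
      · rintro ⟨hi, h9, h10⟩
        refine ⟨⟨i, by omega⟩, ⟨?_, ?_⟩, rfl⟩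
        · intro s hs
          simp only at hs ⊢
          rcases h9 with h9 | h9
          · omega
          · rw [show i - 1 = s.val by omega, ext_sub _ _ s.isLt,
              ext_sub _ _ (show i < N + 1 by omega)] at h9
            have : (⟨s.val, s.isLt⟩ : Fin (N + 1)) = s := rfl
            rw [this] at h9
            linarith
        · intro k hk hpl
          have h11 := h10 k.val (Fin.lt_def.mp hk) (by have := k.isLt; omega) (by
            intro j hj1 hj2
            have hjN : j < N + 1 := by have := k.isLt; omega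
            rw [ext_sub _ _ hjN, ext_sub _ _ (show i < N + 1 by omega)]
            have := hpl ⟨j, hjN⟩ (Fin.lt_def.mpr hj1) (Fin.lt_def.mpr hj2)
            simp only at this
            rw [this])
          rw [ext_sub _ _ k.isLt, ext_sub _ _ (show i < N + 1 by omega)] at h11
          have : (⟨k.val, k.isLt⟩ : Fin (N + 1)) = k := rfl
          rw [this] at h11
          simp only
          linarith
      · rintro ⟨t, ⟨h9, h10⟩, rfl⟩
        have htN := t.isLt
        refine ⟨by omega, ?_, ?_⟩
        · rcases Nat.eq_zero_or_pos t.val with h0 | h0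
          · left; exact h0
          · right
            have h11 := h9 ⟨t.val - 1, by omega⟩ (by simp only; omega)
            rw [ext_sub _ _ (show t.val - 1 < N + 1 by omega), ext_sub _ _ t.isLt]
            simp only at h11
            have : (⟨t.val, t.isLt⟩ : Fin (N + 1)) = t := rfl
            rw [this]
            linarith
        · intro k hk hkN hpl
          have h11 := h10 ⟨k, by omega⟩ (Fin.lt_def.mpr hk) (by
            intro j hj1 hj2
            have h12 := hpl j.val (Fin.lt_def.mp hj1) (Fin.lt_def.mp hj2)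
            rw [ext_sub _ _ j.isLt, ext_sub _ _ t.isLt] at h12
            have e1 : (⟨j.val, j.isLt⟩ : Fin (N + 1)) = j := rfl
            have e2 : (⟨t.val, t.isLt⟩ : Fin (N + 1)) = t := rfl
            rw [e1, e2] at h12
            simp only
            linarith)
          rw [ext_sub _ _ (show k < N + 1 by omega), ext_sub _ _ t.isLt]
          simp only at h11
          have : (⟨t.val, t.isLt⟩ : Fin (N + 1)) = t := rfl
          rw [this]
          linarith
    rw [h8, sum_map]
    refine sum_congr rfl fun t _ => ?_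
    simp only [Fin.valEmbedding_apply]
    rw [ext_sub _ _ t.isLt]
  rw [h5, h6, h7] at h1
  exact h1

end Pool.Agent.Helper37_EM
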