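import Pool.Agent.Helper37_EM.Basic
import Pool.Agent.Helper37_EM.Gap

/-!
# Levels, the nonlinear potential and the cell inequality
-/

set_option autoImplicit false

open Finset

namespace Pool.Agent.Helper37_EM

open Pool.Agent.Helper51_Max

/-- layer cake weights for a finite set of positive levels -/
lemma exists_weights (V : Finset ℝ) (hV : ∀ v ∈ V, 0 < v) :
    ∃ w : ℝ → ℝ, (∀ v ∈ V, 0 ≤ w v) ∧
      ∀ m, (m = 0 ∨ m ∈ V) → ∑ v ∈ V.filter (· ≤ m), w v = m := by
  induction V using Finset.induction_on_max with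
  | empty =>
    refine ⟨fun _ => 0, by simp, fun m hm => ?_⟩
    rcases hm with hm | hm
    · simp [hm]
    · simp at hm
  | insert a s has ih =>
    obtain ⟨w, hw0, hw⟩ := ih fun v hv => hV v (mem_insert_of_mem hv)
    have hna : a ∉ s := fun h => lt_irrefl _ (has a h)
    have hsum : ∑ v ∈ s, w v ≤ a := by
      rcases s.eq_empty_or_nonempty with h1 | h1
      · rw [h1, sum_empty]; exact (hV a (mem_insert_self _ _)).le
      · have h2 := hw (s.max' h1) (Or.inr (s.max'_mem h1))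
        have h3 : s.filter (· ≤ s.max' h1) = s := by
          apply filter_true_of_mem
          intro v hv
          exact s.le_max' v hv
        rw [h3] at h2
        rw [h2]
        exact (has _ (s.max'_mem h1)).le
    refine ⟨fun v => if v = a then a - ∑ u ∈ s, w u else w v, ?_, ?_⟩
    · intro v hv
      by_cases h1 : v = a
      · simp only [h1, if_true]; linarith
      · simp only [h1, if_false]
        exact hw0 v ((mem_insert.mp hv).resolve_left h1)
    · have hcongr : ∀ T : Finset ℝ, T ⊆ s →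
          ∑ v ∈ T, (if v = a then a - ∑ u ∈ s, w u else w v) = ∑ v ∈ T, w v := by
        intro T hT
        refine sum_congr rfl fun v hv => ?_
        rw [if_neg]
        intro h1
        exact hna (h1 ▸ hT hv)
      have hlow : ∀ m, m < a → (m = 0 ∨ m ∈ s) →
          ∑ v ∈ (insert a s).filter (· ≤ m), (if v = a then a - ∑ u ∈ s, w u else w v) = m := by
        intro m hm hm'
        have h1 : (insert a s).filter (· ≤ m) = s.filter (· ≤ m) := by
          rw [filter_insert, if_neg (by linarith)]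
        rw [h1, hcongr _ (filter_subset _ _)]
        exact hw m hm'
      intro m hm
      rcases hm with hm | hm
      · exact hlow m (by rw [hm]; exact hV a (mem_insert_self _ _)) (Or.inl hm)
      · rcases mem_insert.mp hm with h1 | h1
        · have h2 : (insert a s).filter (· ≤ m) = insert a s := by
            apply filter_true_of_mem
            intro v hv
            rw [h1]
            rcases mem_insert.mp hv with h3 | h3
            · exact h3.le
            · exact (has v h3).le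
          rw [h2, sum_insert hna, if_pos rfl, hcongr s (Subset.refl _), h1]
          ring
        · exact hlow m (has m h1) (Or.inr h1)

/-- abstract form of the summation over the levels in a detached cell -/
lemma level_bound {V : Finset ℝ} {w C : ℝ → ℝ} {m₁ m₂ h K : ℝ} (hw : ∀ v ∈ V, 0 ≤ w v)
    (h12 : m₁ ≤ m₂) (hm₁ : ∑ v ∈ V.filter (· ≤ m₁), w v = m₁)
    (hm₂ : ∑ v ∈ V.filter (· ≤ m₂), w v = m₂)
    (hC1 : ∀ v ∈ V, v ≤ m₁ → 1 + K ≤ C v)
    (hC2 : ∀ v ∈ V, m₁ < v → v ≤ m₂ → h - m₁ * (1 + K) ≤ (m₂ - m₁) * C v)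
    (hC3 : ∀ v ∈ V, m₂ < v → 0 ≤ C v)
    (hE : m₁ = m₂ → h ≤ m₁ * (1 + K)) : h ≤ ∑ v ∈ V, w v * C v := by
  have h1 : ∑ v ∈ V, w v * C v = ∑ v ∈ V.filter (· ≤ m₁), w v * C v +
      ∑ v ∈ V.filter (fun v => ¬ v ≤ m₁), w v * C v := (sum_filter_add_sum_filter_not _ _ _).symm
  have h2 : m₁ * (1 + K) ≤ ∑ v ∈ V.filter (· ≤ m₁), w v * C v := by
    have h3 := sum_le_sum (s := V.filter (· ≤ m₁)) (f := fun v => w v * (1 + K))
      (g := fun v => w v * C v) (fun v hv => by
        rw [mem_filter] at hv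
        exact mul_le_mul_of_nonneg_left (hC1 v hv.1 hv.2) (hw v hv.1))
    rw [← sum_mul, hm₁] at h3
    exact h3
  rcases h12.eq_or_lt with h3 | h3
  · have h4 : 0 ≤ ∑ v ∈ V.filter (fun v => ¬ v ≤ m₁), w v * C v := by
      apply sum_nonneg
      intro v hv
      rw [mem_filter, not_le] at hv
      exact mul_nonneg (hw v hv.1) (hC3 v hv.1 (h3 ▸ hv.2))
    have := hE h3
    linarith
  · have hd : 0 < m₂ - m₁ := by linarith
    set lb := (h - m₁ * (1 + K)) / (m₂ - m₁) with hlb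
    have h4 : (m₂ - m₁) * lb ≤ ∑ v ∈ V.filter (fun v => ¬ v ≤ m₁), w v * C v := by
      have h5 : ∑ v ∈ V.filter (fun v => ¬ v ≤ m₁), w v * C v =
          ∑ v ∈ (V.filter (fun v => ¬ v ≤ m₁)).filter (· ≤ m₂), w v * C v +
          ∑ v ∈ (V.filter (fun v => ¬ v ≤ m₁)).filter (fun v => ¬ v ≤ m₂), w v * C v :=
        (sum_filter_add_sum_filter_not _ _ _).symm
      have h6 : 0 ≤ ∑ v ∈ (V.filter (fun v => ¬ v ≤ m₁)).filter (fun v => ¬ v ≤ m₂),
          w v * C v := by
        apply sum_nonneg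
        intro v hv
        rw [mem_filter, mem_filter, not_le, not_le] at hv
        exact mul_nonneg (hw v hv.1.1) (hC3 v hv.1.1 hv.2)
      have h7 : ∑ v ∈ (V.filter (fun v => ¬ v ≤ m₁)).filter (· ≤ m₂), w v * lb ≤
          ∑ v ∈ (V.filter (fun v => ¬ v ≤ m₁)).filter (· ≤ m₂), w v * C v := by
        apply sum_le_sum
        intro v hv
        rw [mem_filter, mem_filter, not_le] at hv
        refine mul_le_mul_of_nonneg_left ?_ (hw v hv.1.1)
        rw [hlb, div_le_iff₀ hd]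
        have := hC2 v hv.1.1 hv.1.2 hv.2
        linarith
      have h8 : ∑ v ∈ (V.filter (fun v => ¬ v ≤ m₁)).filter (· ≤ m₂), w v = m₂ - m₁ := by
        have h9 : ∑ v ∈ V.filter (· ≤ m₂), w v =
            ∑ v ∈ (V.filter (· ≤ m₂)).filter (· ≤ m₁), w v +
            ∑ v ∈ (V.filter (· ≤ m₂)).filter (fun v => ¬ v ≤ m₁), w v :=
          (sum_filter_add_sum_filter_not _ _ _).symm
        have h10 : (V.filter (· ≤ m₂)).filter (· ≤ m₁) = V.filter (· ≤ m₁) := by
          ext v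
          simp only [mem_filter]
          constructor
          · rintro ⟨⟨a, _⟩, b⟩; exact ⟨a, b⟩
          · rintro ⟨a, b⟩; exact ⟨⟨a, b.trans h12⟩, b⟩
        have h11 : (V.filter (· ≤ m₂)).filter (fun v => ¬ v ≤ m₁) =
            (V.filter (fun v => ¬ v ≤ m₁)).filter (· ≤ m₂) := by
          ext v
          simp only [mem_filter]
          tauto
        rw [h10, h11, hm₁, hm₂] at h9
        linarith
      rw [← sum_mul, h8] at h7
      linarith
    have h5 : (m₂ - m₁) * lb = h - m₁ * (1 + K) := by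
      rw [hlb]; field_simp
    linarith

variable {N : ℕ} {g M : ℕ → ℝ} {P : Finset ℕ} {V : Finset ℝ} {w : ℝ → ℝ}

/-- all the data of the potential -/
structure Data (N : ℕ) (g M : ℕ → ℝ) (P : Finset ℕ) (V : Finset ℝ) (w : ℝ → ℝ) : Prop where
  max : IsMax N g M
  tops : Tops N g P
  sub : ∀ t ∈ P, t ≤ N
  wnn : ∀ v ∈ V, 0 ≤ w v
  hM : ∀ x ≤ N, ∑ v ∈ V.filter (· ≤ M x), w v = M x
  hg : ∀ t ∈ P, ∑ v ∈ V.filter (· ≤ g t), w v = g t

/-- the points of `P` of height at least `v` -/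
noncomputable def lev (g : ℕ → ℝ) (P : Finset ℕ) (v : ℝ) : Finset ℕ := P.filter (fun t => v ≤ g t)

/-- the damped relative position: `η + (1 - 2 η) λ` with `2 η = 1 / (N + 1)` -/
noncomputable def Lam (N : ℕ) (S : Finset ℕ) (x : ℕ) : ℝ :=
  1 / (2 * ((N : ℝ) + 1)) + (N / ((N : ℝ) + 1)) * lam S x

/-- the potential -/
noncomputable def Phi (N : ℕ) (g M : ℕ → ℝ) (P : Finset ℕ) (V : Finset ℝ) (w : ℝ → ℝ)
    (x : ℕ) : ℝ := ∑ v ∈ V.filter (· ≤ M x), w v * Lam N (lev g P v) x

/-- total height of the points of `P` left of `x` -/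
noncomputable def Q (g : ℕ → ℝ) (P : Finset ℕ) (x : ℕ) : ℝ := ∑ t ∈ P.filter (· < x), g t

lemma Q_sub {y x : ℕ} (h : y ≤ x) :
    Q g P x - Q g P y = ∑ t ∈ P.filter (fun t => y ≤ t ∧ t < x), g t := by
  unfold Q
  have h1 : P.filter (· < x) = P.filter (· < y) ∪ P.filter (fun t => y ≤ t ∧ t < x) := by
    ext t; simp only [mem_filter, mem_union]
    constructor
    · rintro ⟨a, b⟩
      rcases Nat.lt_or_ge t y with c | c
      · exact Or.inl ⟨a, c⟩
      · exact Or.inr ⟨a, c, b⟩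
    · rintro (⟨a, b⟩ | ⟨a, b, c⟩)
      · exact ⟨a, by omega⟩
      · exact ⟨a, c⟩
  have h2 : Disjoint (P.filter (· < y)) (P.filter (fun t => y ≤ t ∧ t < x)) := by
    rw [disjoint_left]
    intro t h3 h4
    simp only [mem_filter] at h3 h4
    omega
  rw [h1, sum_union h2]
  ring

/-- layer cake for the points of `P` in a set -/
lemma Data.sum_points (D : Data N g M P V w) (p : ℕ → Prop) [DecidablePred p] :
    ∑ t ∈ P.filter p, g t = ∑ v ∈ V, w v * (((lev g P v).filter p).card : ℝ) := by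
  have h1 : ∀ t ∈ P.filter p, g t = ∑ v ∈ V, w v * (if v ≤ g t then 1 else 0) := by
    intro t ht
    rw [mem_filter] at ht
    conv_lhs => rw [← D.hg t ht.1]
    rw [sum_filter]
    refine sum_congr rfl fun v _ => ?_
    split_ifs <;> simp
  rw [sum_congr rfl h1, sum_comm]
  refine sum_congr rfl fun v _ => ?_
  rw [← mul_sum]
  congr 1
  rw [← sum_filter, sum_const, nsmul_eq_mul, mul_one]
  congr 2
  unfold lev
  ext t
  simp only [mem_filter]
  tauto

lemma Data.Phi_eq (_D : Data N g M P V w) (x : ℕ) :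
    Phi N g M P V w x = ∑ v ∈ V, w v * (if v ≤ M x then Lam N (lev g P v) x else 0) := by
  unfold Phi
  rw [sum_filter]
  refine sum_congr rfl fun v _ => ?_
  split_ifs <;> simp

lemma Data.M_eq (D : Data N g M P V w) {x : ℕ} (hx : x ≤ N) :
    M x = ∑ v ∈ V, w v * (if v ≤ M x then 1 else 0) := by
  conv_lhs => rw [← D.hM x hx]
  rw [sum_filter]
  refine sum_congr rfl fun v _ => ?_
  split_ifs <;> simp

lemma Data.sub_Phi (D : Data N g M P V w) {x : ℕ} (hx : x ≤ N) :
    M x - Phi N g M P V w x =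
      ∑ v ∈ V, w v * (if v ≤ M x then 1 - Lam N (lev g P v) x else 0) := by
  have h1 := D.M_eq hx
  have h2 := D.Phi_eq x
  have h3 : ∑ v ∈ V, w v * (if v ≤ M x then 1 - Lam N (lev g P v) x else 0) =
      ∑ v ∈ V, w v * (if v ≤ M x then 1 else 0) -
      ∑ v ∈ V, w v * (if v ≤ M x then Lam N (lev g P v) x else 0) := by
    rw [← sum_sub_distrib]
    refine sum_congr rfl fun v _ => ?_
    split_ifs <;> ring
  rw [h3, ← h1, ← h2]

/-- the right side of the cell inequality as a sum over the levels -/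
lemma Data.rhs_eq (D : Data N g M P V w) {y x : ℕ} (hyx : y ≤ x) (hx : x ≤ N) :
    (M y - Phi N g M P V w y) + Phi N g M P V w x +
      (N / ((N : ℝ) + 1)) * (Q g P x - Q g P y) =
    ∑ v ∈ V, w v * ((if v ≤ M y then 1 - Lam N (lev g P v) y else 0) +
      (if v ≤ M x then Lam N (lev g P v) x else 0) +
      (N / ((N : ℝ) + 1)) * (((lev g P v).filter (fun t => y ≤ t ∧ t < x)).card : ℝ)) := by
  rw [Q_sub hyx, D.sum_points, D.sub_Phi (hyx.trans hx), D.Phi_eq x, mul_sum,
    ← sum_add_distrib, ← sum_add_distrib]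
  refine sum_congr rfl fun v _ => ?_
  ring

/-- `x` is lower than some point on its left and than some point on its right -/
def Inner (N : ℕ) (M : ℕ → ℝ) (x : ℕ) : Prop :=
  (∃ v < x, M x < M v) ∧ ∃ v, x < v ∧ v ≤ N ∧ M x < M v

lemma lev_anti {g : ℕ → ℝ} {P : Finset ℕ} {u v : ℝ} (h : u ≤ v) : lev g P v ⊆ lev g P u := by
  intro t; simp only [lev, mem_filter]
  exact fun ⟨a, b⟩ => ⟨a, h.trans b⟩

lemma Data.has (D : Data N g M P V w) {x : ℕ} (hx : x ≤ N) (hin : Inner N M x) {v : ℝ}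
    (hv : v ≤ M x) : Has (lev g P v) x := by
  obtain ⟨⟨a, ha, ha'⟩, b, hb, hbN, hb'⟩ := hin
  obtain ⟨t, ht, h1, h2⟩ := exists_left D.max D.tops ha hx ha'
  obtain ⟨t', ht', h1', _, h2'⟩ := exists_right D.max D.tops hb hbN hb'
  refine ⟨⟨t, ?_, h1⟩, t', ?_, h1'.le⟩
  · simp only [lev, mem_filter]; exact ⟨ht, by linarith⟩
  · simp only [lev, mem_filter]; exact ⟨ht', by linarith⟩

lemma eta_c (N : ℕ) : 1 / (2 * ((N : ℝ) + 1)) * 2 + N / ((N : ℝ) + 1) = 1 := by
  have : (N : ℝ) + 1 ≠ 0 := by positivity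
  field_simp
  ring

lemma c_nonneg (N : ℕ) : 0 ≤ N / ((N : ℝ) + 1) := by positivity

lemma eta_pos (N : ℕ) : 0 < 1 / (2 * ((N : ℝ) + 1)) := by positivity

/-- the superball inequality for a set `S` of points of `P` without points in the cell -/
lemma superball {S : Finset ℕ} {A E t t' y x : ℕ} {h m m' : ℝ} (hyx : y < x) (hE : E ≤ N)
    (ht : t ∈ S) (ht' : t' ∈ S) (hAt : A ≤ t) (hty : t < y) (hxt' : x < t') (ht'E : t' ≤ E)
    (hno : ∀ s ∈ S, y ≤ s → x ≤ s) (hAE : 2 * y ≤ A + E) (hAE' : A + E ≤ 2 * x) (hh : 0 ≤ h)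
    (hm : h * ((E : ℝ) - A + 1) ≤ m * (2 * ((E : ℝ) - y) + 1))
    (hm' : h * ((E : ℝ) - A + 1) ≤ m' * (2 * ((x : ℝ) - A) + 1)) :
    h ≤ (1 - Lam N S y) * m + Lam N S x * m' := by
  have hy : Has S y := ⟨⟨t, ht, hty⟩, t', ht', by omega⟩
  have hx : Has S x := ⟨⟨t, ht, by omega⟩, t', ht', hxt'.le⟩
  obtain ⟨h1, h2⟩ := same_gap hy hx hyx.le hno
  set c : ℕ := lo S y with hc
  set d : ℕ := hi S y with hd
  have hc1 := lo_mem hy
  have hd1 := hi_mem hx
  rw [h2] at hd1
  have hAc : A ≤ c := hAt.trans (le_lo ht hty)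
  have hdE : d ≤ E := le_trans (hi_le ht' (by omega)) ht'E
  have hcy : c < y := hc1.2
  have hxd : x ≤ d := hd1.2
  have hN : 0 < N := by omega
  have hNR : (0 : ℝ) < N := by exact_mod_cast hN
  have rAc : (A : ℝ) ≤ c := by exact_mod_cast hAc
  have rdE : (d : ℝ) ≤ E := by exact_mod_cast hdE
  have rcy : (c : ℝ) < y := by exact_mod_cast hcy
  have rxd : (x : ℝ) ≤ d := by exact_mod_cast hxd
  have ryx : (y : ℝ) < x := by exact_mod_cast hyx
  have rdN : (d : ℝ) ≤ N := by exact_mod_cast (hdE.trans hE)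
  have rc0 : (0 : ℝ) ≤ (c : ℝ) := by positivity
  have rAE : 2 * (y : ℝ) ≤ A + E := by exact_mod_cast hAE
  have rAE' : (A : ℝ) + E ≤ 2 * x := by exact_mod_cast hAE'
  -- the enlarged gap
  set θ : ℝ := ((d : ℝ) - c) / (2 * N) with hθ
  have hθ0 : 0 ≤ θ := div_nonneg (by linarith) (by linarith)
  have hθ1 : θ ≤ 1 / 2 := by
    rw [hθ, div_le_div_iff₀ (by linarith) (by norm_num)]
    linarith
  have key := superball_real (A := (A : ℝ) - 1 / 2) (E := (E : ℝ) + 1 / 2) (c := (c : ℝ) - θ)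
    (d := (d : ℝ) + θ) (y := y) (x := x) (h := h) (m := m) (m' := m') (by linarith)
    (by linarith) (by linarith) (by linarith) (by linarith) (by linarith) (by linarith)
    (by linarith) (by linarith) hh (by linarith) (by linarith)
  have hcd : (0 : ℝ) < (d : ℝ) - c := by linarith
  have e1 : ((d : ℝ) + θ - y) / ((d : ℝ) + θ - ((c : ℝ) - θ)) = 1 - Lam N S y := by
    unfold Lam lam
    rw [← hc, ← hd, hθ]
    have h3 : (N : ℝ) ≠ 0 := hNR.ne'
    have h4 : (d : ℝ) - c ≠ 0 := hcd.ne'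
    have h5 : (N : ℝ) + 1 ≠ 0 := by positivity
    have h6 : (d : ℝ) + ((d : ℝ) - c) / (2 * N) - ((c : ℝ) - ((d : ℝ) - c) / (2 * N)) =
      ((d : ℝ) - c) * ((N : ℝ) + 1) / N := by field_simp; ring
    rw [h6]
    field_simp
    ring
  have e2 : ((x : ℝ) - ((c : ℝ) - θ)) / ((d : ℝ) + θ - ((c : ℝ) - θ)) = Lam N S x := by
    unfold Lam lam
    rw [h1, h2, hθ]
    have h3 : (N : ℝ) ≠ 0 := hNR.ne'
    have h4 : (d : ℝ) - c ≠ 0 := hcd.ne'
    have h5 : (N : ℝ) + 1 ≠ 0 := by positivity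
    have h6 : (d : ℝ) + ((d : ℝ) - c) / (2 * N) - ((c : ℝ) - ((d : ℝ) - c) / (2 * N)) =
      ((d : ℝ) - c) * ((N : ℝ) + 1) / N := by field_simp; ring
    rw [h6]
    field_simp
    ring
  rw [e1, e2] at key
  exact key

end Pool.Agent.Helper37_EM
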