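import Pool.Agent.Helper37_EM.Cell

/-!
# Summation over the cells
-/

set_option autoImplicit false

open Finset

namespace Pool.Agent.Helper37_EM

open Pool.Agent.Helper51_Max

variable {N : ℕ} {g M : ℕ → ℝ} {P : Finset ℕ} {V : Finset ℝ} {w : ℝ → ℝ}

lemma Q_split {s x : ℕ} (hsx : s < x) (hs : s ∈ P) :
    Q g P x = Q g P s + g s + ∑ t ∈ P.filter (fun t => s < t ∧ t < x), g t := by
  have h1 := filter_split (g := g) (y := 0) (Nat.zero_le s) hsx hs
  unfold Q
  simpa using h1

/-- total height of `P` -/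
noncomputable def QT (g : ℕ → ℝ) (P : Finset ℕ) : ℝ := ∑ t ∈ P, g t

lemma QT_split {s : ℕ} (hs : s ∈ P) :
    QT g P = Q g P s + g s + ∑ t ∈ P.filter (fun t => s < t), g t := by
  unfold QT Q
  have h1 : P = insert s (P.filter (· < s) ∪ P.filter (fun t => s < t)) := by
    ext t
    simp only [mem_filter, mem_insert, mem_union]
    constructor
    · intro ht
      rcases lt_trichotomy t s with d | d | d
      · exact Or.inr (Or.inl ⟨ht, d⟩)
      · exact Or.inl d
      · exact Or.inr (Or.inr ⟨ht, d⟩)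
    · rintro (a | ⟨a, _⟩ | ⟨a, _⟩)
      · subst a; exact hs
      · exact a
      · exact a
  have h2 : Disjoint (P.filter (· < s)) (P.filter (fun t => s < t)) := by
    rw [disjoint_left]
    intro t h3 h4
    simp only [mem_filter] at h3 h4
    omega
  conv_lhs => rw [h1]
  rw [sum_insert (by simp), sum_union h2]
  ring

/-- the first cell -/
lemma Data.first (D : Data N g M P V w) {z x : ℕ} (hzx : z ≤ x) (hx : x ≤ N)
    (hmax : ∀ i ≤ x, M i ≤ M z) (hlt : M x < M z) (hin : ∃ v, x < v ∧ v ≤ N ∧ M x < M v) :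
    2 * M z - M 0 ≤ 2 * Phi N g M P V w x + (N / ((N : ℝ) + 1)) * (2 * Q g P x - g 0) := by
  obtain ⟨s, hs, hsx, hgs⟩ := attached_first D.max D.tops hzx hx hmax hlt
  have hzx' : z < x := by
    rcases Nat.eq_or_lt_of_le hzx with h0 | h0
    · subst h0; exact absurd hlt (lt_irrefl _)
    · exact h0
  have hxin : Inner N M x := ⟨⟨z, hzx', hlt⟩, hin⟩
  have h1 := D.half_right hs hsx hx hxin (by linarith)
  have hg0 := g_le D.max (show 0 ≤ N by omega)
  have h2 := D.wall_left hs (by rw [hgs]; exact hg0.trans (hmax 0 (by omega)))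
  rw [Q_split hsx hs]
  have h3 := eta_c N
  have e1 : g s / (2 * ((N : ℝ) + 1)) = 1 / 2 * (g s / ((N : ℝ) + 1)) := by
    have : (N : ℝ) + 1 ≠ 0 := by positivity
    field_simp
  have e2 : (N / ((N : ℝ) + 1)) * g s = g s - g s / ((N : ℝ) + 1) := by
    have : (N : ℝ) + 1 ≠ 0 := by positivity
    field_simp
    ring
  rw [e1] at h1
  rw [← hgs]
  nlinarith

/-- the last cell -/
lemma Data.last (D : Data N g M P V w) {y z : ℕ} (hyz : y ≤ z) (hz : z ≤ N)
    (hmax : ∀ i, y ≤ i → i ≤ N → M i ≤ M z) (hlt : M y < M z) (hin : ∃ v < y, M y < M v) :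
    2 * M z - M N ≤ 2 * (M y - Phi N g M P V w y) +
      (N / ((N : ℝ) + 1)) * (2 * (QT g P - Q g P y) - g N) := by
  obtain ⟨s, hs, hys, hsN, hgs⟩ := attached_last D.max D.tops hyz hz hmax hlt
  have hyz' : y < z := by
    rcases Nat.eq_or_lt_of_le hyz with h0 | h0
    · subst h0; exact absurd hlt (lt_irrefl _)
    · exact h0
  have hyin : Inner N M y := ⟨hin, z, hyz', hz, hlt⟩
  have h1 := D.half_left hs hys hyin (by linarith)
  have hgN := g_le D.max (show N ≤ N by omega)
  have h2 := D.wall_right hs (by rw [hgs]; exact hgN.trans (hmax N (by omega) le_rfl))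
  have h4 : Q g P s - Q g P y = ∑ t ∈ P.filter (fun t => y ≤ t ∧ t < s), g t := Q_sub hys.le
  rw [← h4] at h1
  rw [QT_split hs]
  have h3 := eta_c N
  have e1 : g s / (2 * ((N : ℝ) + 1)) = 1 / 2 * (g s / ((N : ℝ) + 1)) := by
    have : (N : ℝ) + 1 ≠ 0 := by positivity
    field_simp
  have e2 : (N / ((N : ℝ) + 1)) * g s = g s - g s / ((N : ℝ) + 1) := by
    have : (N : ℝ) + 1 ≠ 0 := by positivity
    field_simp
    ring
  rw [e1] at h1
  rw [← hgs]
  nlinarith

/-- a single cell -/
lemma Data.single (D : Data N g M P V w) {z : ℕ} (hz : z ≤ N)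
    (hmax : ∀ i ≤ N, M i ≤ M z) :
    2 * M z - M 0 - M N ≤ (N / ((N : ℝ) + 1)) * (2 * QT g P - g 0 - g N) := by
  -- the maximum of `M` is attained by `g`
  obtain ⟨s, hs, hgs⟩ : ∃ s ∈ P, g s = M z := by
    obtain ⟨r, hr⟩ := D.max.attained z hz
    have h1 : ∃ i ∈ I N z r, M z ≤ g i := by
      by_contra hcon
      push Not at hcon
      have h2 := sum_lt_sum_of_nonempty (s := I N z r) (f := g) (g := fun _ => M z)
        (card_pos.mp (card_I_pos r hz)) hcon
      rw [sum_const, nsmul_eq_mul, ← hr] at h2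
      linarith
    obtain ⟨i, hi, h2⟩ := h1
    have hiN : i ≤ N := by simp only [I, mem_Icc] at hi; omega
    obtain ⟨t, ht, htN, h3⟩ := D.tops.all hiN
    have h4 := g_le D.max htN
    have h5 := hmax t htN
    exact ⟨t, ht, by linarith⟩
  have hg0 := g_le D.max (show 0 ≤ N by omega)
  have hgN := g_le D.max (show N ≤ N by omega)
  have h1 := D.wall_left hs (by rw [hgs]; exact hg0.trans (hmax 0 (by omega)))
  have h2 := D.wall_right hs (by rw [hgs]; exact hgN.trans (hmax N le_rfl))
  rw [QT_split hs]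
  have e2 : (N / ((N : ℝ) + 1)) * g s = g s - g s / ((N : ℝ) + 1) := by
    have : (N : ℝ) + 1 ≠ 0 := by positivity
    field_simp
    ring
  rw [← hgs]
  nlinarith

/-- variation of `u` on `[a, b]` -/
noncomputable def var (u : ℕ → ℝ) (a b : ℕ) : ℝ := ∑ i ∈ Ico a b, |u i - u (i + 1)|

lemma var_anti {u : ℕ → ℝ} {a b : ℕ} (hab : a ≤ b) (h : ∀ i, a ≤ i → i < b → u (i + 1) ≤ u i) :
    var u a b = u a - u b := by
  unfold var
  induction b, hab using Nat.le_induction with
  | base => simp
  | succ c hac ih =>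
    rw [sum_Ico_succ_top hac, ih fun i h1 h2 => h i h1 (by omega),
      abs_of_nonneg (by linarith [h c hac (by omega)])]
    ring

lemma var_mono {u : ℕ → ℝ} {a b : ℕ} (hab : a ≤ b) (h : ∀ i, a ≤ i → i < b → u i ≤ u (i + 1)) :
    var u a b = u b - u a := by
  unfold var
  induction b, hab using Nat.le_induction with
  | base => simp
  | succ c hac ih =>
    rw [sum_Ico_succ_top hac, ih fun i h1 h2 => h i h1 (by omega), abs_sub_comm,
      abs_of_nonneg (by linarith [h c hac (by omega)])]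
    ring

lemma var_add {u : ℕ → ℝ} {a b c : ℕ} (hab : a ≤ b) (hbc : b ≤ c) :
    var u a c = var u a b + var u b c := (sum_Ico_consecutive _ hab hbc).symm

lemma le_of_anti {u : ℕ → ℝ} {a b : ℕ} (h : ∀ i, a ≤ i → i < b → u (i + 1) ≤ u i) {i : ℕ}
    (hai : a ≤ i) (hib : i ≤ b) : u i ≤ u a := by
  induction i, hai using Nat.le_induction with
  | base => exact le_rfl
  | succ c hac ih => exact (h c hac (by omega)).trans (ih (by omega))

lemma le_of_mono {u : ℕ → ℝ} {a b : ℕ} (h : ∀ i, a ≤ i → i < b → u i ≤ u (i + 1)) {i j : ℕ}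
    (hai : a ≤ i) (hij : i ≤ j) (hjb : j ≤ b) : u i ≤ u j := by
  induction j, hij using Nat.le_induction with
  | base => exact le_rfl
  | succ c hac ih => exact (ih (by omega)).trans (h c (by omega) (by omega))

/-- start of the monotone runs ending at `x` -/
lemma exists_run {u : ℕ → ℝ} (x : ℕ) :
    ∃ z y, y ≤ z ∧ z ≤ x ∧ (∀ i, z ≤ i → i < x → u (i + 1) ≤ u i) ∧
      (∀ i, y ≤ i → i < z → u i ≤ u (i + 1)) ∧
      (z = 0 ∨ (y < z ∧ u y < u z)) ∧ (y = 0 ∨ (0 < y ∧ u y < u (y - 1))) := by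
  classical
  have h1 : ∃ z, z ≤ x ∧ ∀ i, z ≤ i → i < x → u (i + 1) ≤ u i := ⟨x, le_rfl, by omega⟩
  let z := Nat.find h1
  have hz := Nat.find_spec h1
  have hzmin : ∀ z' < z, ¬ (z' ≤ x ∧ ∀ i, z' ≤ i → i < x → u (i + 1) ≤ u i) :=
    fun z' h => Nat.find_min h1 h
  have h2 : ∃ y, y ≤ z ∧ ∀ i, y ≤ i → i < z → u i ≤ u (i + 1) := ⟨z, le_rfl, by omega⟩
  let y := Nat.find h2
  have hy := Nat.find_spec h2
  have hymin : ∀ y' < y, ¬ (y' ≤ z ∧ ∀ i, y' ≤ i → i < z → u i ≤ u (i + 1)) :=
    fun z' h => Nat.find_min h2 h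
  refine ⟨z, y, hy.1, hz.1, hz.2, hy.2, ?_, ?_⟩
  · rcases Nat.eq_zero_or_pos z with h3 | h3
    · exact Or.inl h3
    · right
      have h4 : u (z - 1) < u z := by
        by_contra hcon
        push Not at hcon
        apply hzmin (z - 1) (by omega)
        refine ⟨by have := hz.1; omega, fun i h5 h6 => ?_⟩
        rcases Nat.eq_or_lt_of_le h5 with h7 | h7
        · rw [← h7, show z - 1 + 1 = z by omega]; exact hcon
        · exact hz.2 i (by omega) h6
      have h5 : y ≤ z - 1 := by
        by_contra hcon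
        push Not at hcon
        apply hymin (z - 1) (by omega)
        refine ⟨by omega, fun i h6 h7 => ?_⟩
        have h8 : i = z - 1 := by omega
        rw [h8, show z - 1 + 1 = z by omega]
        exact h4.le
      refine ⟨by omega, ?_⟩
      have h6 := le_of_mono hy.2 (i := y) (j := z - 1) le_rfl h5 (by omega)
      linarith
  · rcases Nat.eq_zero_or_pos y with h3 | h3
    · exact Or.inl h3
    · right
      refine ⟨h3, ?_⟩
      by_contra hcon
      push Not at hcon
      apply hymin (y - 1) (by omega)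
      refine ⟨by have := hy.1; omega, fun i h5 h6 => ?_⟩
      rcases Nat.eq_or_lt_of_le h5 with h7 | h7
      · rw [← h7, show y - 1 + 1 = y by omega]; exact hcon
      · exact hy.2 i (by omega) h6

/-- the head estimate at points of the descending runs -/
lemma Data.headEst (D : Data N g M P V w) (x : ℕ) : x ≤ N →
    (0 < x ∧ M x < M (x - 1)) → (∃ v, x < v ∧ v ≤ N ∧ M x < M v) →
    var M 0 x + M x ≤ 2 * Phi N g M P V w x +
      (N / ((N : ℝ) + 1)) * (2 * Q g P x - g 0) := by
  induction x using Nat.strong_induction_on with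
  | _ x ih =>
  intro hx hdown hright
  obtain ⟨z, y, hyz, hzx, hanti, hmono, hz, hy⟩ := exists_run (u := M) x
  have hzx' : z < x := by
    rcases Nat.eq_or_lt_of_le hzx with h0 | h0
    · exfalso
      subst h0
      rcases hz with h1 | ⟨h1, _⟩
      · omega
      · have := hmono (z - 1) (by omega) (by omega)
        rw [show z - 1 + 1 = z by omega] at this
        linarith [hdown.2]
    · exact h0
  have hMxz : M x < M z := by
    have h1 := le_of_anti hanti (i := x - 1) (by omega) (by omega)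
    linarith [hdown.2]
  have hmaxc : ∀ i, y ≤ i → i ≤ x → M i ≤ M z := by
    intro i h1 h2
    rcases Nat.lt_or_ge i z with h3 | h3
    · exact le_of_mono hmono h1 h3.le le_rfl
    · exact le_of_anti hanti h3 h2
  have hvar : var M 0 x = var M 0 y + (M z - M y) + (M z - M x) := by
    rw [var_add (Nat.zero_le y) (hyz.trans hzx), var_add hyz hzx, var_mono hyz hmono,
      var_anti hzx hanti]
    ring
  rcases hy with hy0 | ⟨hy0, hylt⟩
  · -- first cell
    subst hy0
    have h1 := D.first hzx hx (fun i hi => hmaxc i (Nat.zero_le i) hi) hMxz hright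
    rw [hvar]
    have h2 : var M 0 0 = 0 := by simp [var]
    rw [h2]
    linarith
  · rcases hz with hz0 | ⟨hyz', hMyz⟩
    · omega
    · have h1 := ih y (by omega) (by omega) ⟨hy0, hylt⟩ ⟨z, hyz', by omega, hMyz⟩
      have h2 := D.cell hyz' hzx' hx hmaxc hMyz hMxz
        ⟨⟨y - 1, by omega, hylt⟩, z, hyz', by omega, hMyz⟩ ⟨⟨z, hzx', hMxz⟩, hright⟩
      rw [hvar]
      nlinarith

/-- **Main estimate.** -/
theorem Data.main (D : Data N g M P V w) :
    var M 0 N ≤ (N / ((N : ℝ) + 1)) * (2 * QT g P - g 0 - g N) := by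
  obtain ⟨z, y, hyz, hzN, hanti, hmono, hz, hy⟩ := exists_run (u := M) N
  have hmaxc : ∀ i, y ≤ i → i ≤ N → M i ≤ M z := by
    intro i h1 h2
    rcases Nat.lt_or_ge i z with h3 | h3
    · exact le_of_mono hmono h1 h3.le le_rfl
    · exact le_of_anti hanti h3 h2
  have hvar : var M 0 N = var M 0 y + (M z - M y) + (M z - M N) := by
    rw [var_add (Nat.zero_le y) (hyz.trans hzN), var_add hyz hzN, var_mono hyz hmono,
      var_anti hzN hanti]
    ring
  rcases hy with hy0 | ⟨hy0, hylt⟩
  · subst hy0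
    have h1 := D.single hzN (fun i hi => hmaxc i (Nat.zero_le i) hi)
    rw [hvar]
    have h2 : var M 0 0 = 0 := by simp [var]
    rw [h2]
    linarith
  · rcases hz with hz0 | ⟨hyz', hMyz⟩
    · omega
    · have h1 := D.headEst y (by omega) ⟨hy0, hylt⟩ ⟨z, hyz', by omega, hMyz⟩
      have h2 := D.last hyz hzN hmaxc hMyz ⟨y - 1, by omega, hylt⟩
      rw [hvar]
      nlinarith

/-- the main estimate for every set `P` of points meeting all local maxima -/
theorem main_of_tops (h : IsMax N g M) (hP : Tops N g P) (hsub : ∀ t ∈ P, t ≤ N) :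
    var M 0 N ≤ (N / ((N : ℝ) + 1)) * (2 * QT g P - g 0 - g N) := by
  classical
  set V : Finset ℝ := ((range (N + 1)).image M ∪ (range (N + 1)).image g).filter (0 < ·) with hV
  obtain ⟨w, hw0, hw⟩ := exists_weights V (fun v hv => (mem_filter.mp hv).2)
  have hmem : ∀ m : ℝ, 0 ≤ m → m ∈ (range (N + 1)).image M ∪ (range (N + 1)).image g →
      m = 0 ∨ m ∈ V := by
    intro m h1 h2
    rcases h1.eq_or_lt with h3 | h3
    · exact Or.inl h3.symm
    · exact Or.inr (mem_filter.mpr ⟨h2, h3⟩)
  have D : Data N g M P V w := by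
    refine ⟨h, hP, hsub, hw0, ?_, ?_⟩
    · intro x hx
      refine hw _ (hmem _ (h.M_nonneg hx) ?_)
      rw [mem_union]; left
      exact mem_image_of_mem _ (by rw [mem_range]; omega)
    · intro t ht
      refine hw _ (hmem _ (h.nonneg t) ?_)
      rw [mem_union]; right
      exact mem_image_of_mem _ (by rw [mem_range]; have := hsub t ht; omega)
  exact D.main

end Pool.Agent.Helper37_EM
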