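import Pool.Agent.Helper37_EM.Main

/-!
# The local maxima of a function on `{0, …, N}`; functions with equal minima
-/

set_option autoImplicit false

open Finset

namespace Pool.Agent.Helper37_EM

open Pool.Agent.Helper51_Max

variable {N : ℕ} {g M : ℕ → ℝ}

/-- `t` is the left end of a plateau at which `g` has a local maximum -/
def Peak (N : ℕ) (g : ℕ → ℝ) (t : ℕ) : Prop :=
  (t = 0 ∨ g (t - 1) < g t) ∧
    ∀ k, t < k → k ≤ N → (∀ j, t < j → j < k → g j = g t) → g k ≤ g t

open Classical in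
/-- the set of all local maxima -/
noncomputable def peaks (N : ℕ) (g : ℕ → ℝ) : Finset ℕ := (range (N + 1)).filter (Peak N g)

lemma mem_peaks {t : ℕ} : t ∈ peaks N g ↔ t ≤ N ∧ Peak N g t := by
  simp [peaks]

lemma tops_peaks (N : ℕ) (g : ℕ → ℝ) : Tops N g (peaks N g) := by
  classical
  intro lo x hi hlo hxhi hhi hl hr
  -- the smallest maximum point of `g` on `[lo, hi]`
  have hne : (Icc lo hi).Nonempty := ⟨x, by rw [mem_Icc]; exact ⟨hlo, hxhi⟩⟩
  obtain ⟨m, hm, hmmax⟩ := exists_max_image (Icc lo hi) g hne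
  have h1 : ∃ t, t ∈ Icc lo hi ∧ g m ≤ g t := ⟨m, hm, le_rfl⟩
  let t := Nat.find h1
  have ht := Nat.find_spec h1
  have htmin : ∀ s < t, ¬ (s ∈ Icc lo hi ∧ g m ≤ g s) := fun s hs => Nat.find_min h1 hs
  have htI : lo ≤ t ∧ t ≤ hi := mem_Icc.mp ht.1
  have hmax : ∀ i, lo ≤ i → i ≤ hi → g i ≤ g t := fun i h2 h3 =>
    (hmmax i (mem_Icc.mpr ⟨h2, h3⟩)).trans ht.2
  have hxt : g x ≤ g t := hmax x hlo hxhi
  refine ⟨t, ?_, htI.1, htI.2, hxt⟩
  rw [mem_peaks]
  refine ⟨by omega, ?_, ?_⟩
  · rcases Nat.eq_or_lt_of_le htI.1 with h2 | h2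
    · rcases hl with h3 | h3
      · left; omega
      · right; rw [← h2]; exact lt_of_lt_of_le h3 (by rw [h2]; exact hxt)
    · right
      by_contra hcon
      push Not at hcon
      exact htmin (t - 1) (by omega) ⟨mem_Icc.mpr ⟨by omega, by omega⟩, ht.2.trans hcon⟩
  · intro k htk hkN hplat
    rcases Nat.lt_or_ge hi k with h2 | h2
    · rcases hr with h3 | h3
      · omega
      · rcases Nat.eq_or_lt_of_le (show hi + 1 ≤ k by omega) with h4 | h4
        · rw [← h4]; linarith
        · have h5 := hplat (hi + 1) (by omega) h4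
          linarith
    · exact hmax k (by omega) h2

lemma abs_le_var (u : ℕ → ℝ) {a b : ℕ} (hab : a ≤ b) : |u a - u b| ≤ var u a b := by
  induction b, hab using Nat.le_induction with
  | base => simp [var]
  | succ c hac ih =>
    have h1 : var u a (c + 1) = var u a c + |u c - u (c + 1)| := by
      unfold var; rw [sum_Ico_succ_top hac]
    rw [h1]
    have h2 := abs_sub_le (u a) (u c) (u (c + 1))
    linarith

/-- between two peaks there is a zero, if all interior local minima vanish -/
lemma zero_between (hdip : ∀ i j k, i < j → j < k → k ≤ N → g j < g i → g j < g k →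
    ∃ l, i < l ∧ l < k ∧ g l = 0) {s t : ℕ} (hs : s ∈ peaks N g) (ht : t ∈ peaks N g)
    (hst : s < t) : ∃ l, s < l ∧ l < t ∧ g l = 0 := by
  classical
  rw [mem_peaks] at hs ht
  obtain ⟨hsN, -, hs2⟩ := hs
  obtain ⟨htN, ht1, -⟩ := ht
  have ht3 : g (t - 1) < g t := by
    rcases ht1 with h | h
    · omega
    · exact h
  have h1 : ∃ k, s < k ∧ k < t ∧ g k ≠ g s := by
    by_contra hcon
    push Not at hcon
    have h2 := hs2 t hst htN (fun j h3 h4 => hcon j h3 h4)
    rcases Nat.eq_or_lt_of_le (show s ≤ t - 1 by omega) with h3 | h3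
    · rw [← h3] at ht3; linarith
    · have := hcon (t - 1) h3 (by omega)
      linarith
  let k := Nat.find h1
  have hk := Nat.find_spec h1
  have hkmin : ∀ j < k, ¬ (s < j ∧ j < t ∧ g j ≠ g s) := fun j hj => Nat.find_min h1 hj
  have hgk : g k < g s := by
    refine lt_of_le_of_ne (hs2 k hk.1 (by have := hk.2.1; omega) fun j h2 h3 => ?_) hk.2.2
    by_contra h4
    exact hkmin j h3 ⟨h2, by have := hk.2.1; omega, h4⟩
  have hne : (Ioo s t).Nonempty := ⟨k, mem_Ioo.mpr ⟨hk.1, hk.2.1⟩⟩
  obtain ⟨j, hj, hjmin⟩ := exists_min_image (Ioo s t) g hne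
  have hj' := mem_Ioo.mp hj
  have h2 := hjmin k (mem_Ioo.mpr ⟨hk.1, hk.2.1⟩)
  have h3 := hjmin (t - 1) (mem_Ioo.mpr ⟨by have := hk.1; have := hk.2.1; omega, by omega⟩)
  exact hdip s j t hj'.1 hj'.2 htN (by linarith) (by linarith)

/-- for equal minima the variation is twice the sum of the local maxima -/
lemma peaks_le_var (hnn : ∀ i, 0 ≤ g i)
    (hdip : ∀ i j k, i < j → j < k → k ≤ N → g j < g i → g j < g k →
      ∃ l, i < l ∧ l < k ∧ g l = 0) :
    2 * QT g (peaks N g) - g 0 - g N ≤ var g 0 N := by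
  classical
  have key : ∀ t, t ∈ peaks N g → 2 * Q g (peaks N g) t + g t ≤ var g 0 t + g 0 := by
    intro t
    induction t using Nat.strong_induction_on with
    | _ t ih =>
    intro ht
    by_cases hex : ∃ s ∈ peaks N g, s < t
    · have hne : ((peaks N g).filter (· < t)).Nonempty := by
        obtain ⟨s, hs, hst⟩ := hex
        exact ⟨s, mem_filter.mpr ⟨hs, hst⟩⟩
      obtain ⟨s, hs, hmax⟩ : ∃ s ∈ (peaks N g).filter (· < t), ∀ i ∈ (peaks N g).filter (· < t),
          i ≤ s := ⟨_, max'_mem _ hne, fun i hi => le_max' _ i hi⟩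
      rw [mem_filter] at hs
      have h1 := ih s hs.2 hs.1
      have h2 : Q g (peaks N g) t = Q g (peaks N g) s + g s := by
        rw [Q_split hs.2 hs.1]
        have h3 : (peaks N g).filter (fun i => s < i ∧ i < t) = ∅ := by
          rw [filter_eq_empty_iff]
          rintro i hi ⟨h4, h5⟩
          have := hmax i (mem_filter.mpr ⟨hi, h5⟩)
          omega
        rw [h3, sum_empty, add_zero]
      obtain ⟨l, hsl, hlt, hl⟩ := zero_between hdip hs.1 ht hs.2
      have h3 := abs_le_var g hsl.le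
      have h4 := abs_le_var g hlt.le
      rw [hl, sub_zero, abs_of_nonneg (hnn s)] at h3
      rw [hl, zero_sub, abs_neg, abs_of_nonneg (hnn t)] at h4
      have h5 : var g 0 t = var g 0 s + (var g s l + var g l t) := by
        rw [← var_add hsl.le hlt.le, ← var_add (Nat.zero_le s) hs.2.le]
      rw [h2, h5]
      linarith
    · push Not at hex
      have h1 : Q g (peaks N g) t = 0 := by
        unfold Q
        have h2 : (peaks N g).filter (· < t) = ∅ := by
          rw [filter_eq_empty_iff]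
          intro i hi
          have := hex i hi
          omega
        rw [h2, sum_empty]
      rw [h1]
      have h2 := abs_le_var g (Nat.zero_le t)
      have h3 := neg_abs_le (g 0 - g t)
      linarith
  obtain ⟨t0, ht0, -, -⟩ := (tops_peaks N g).all (Nat.zero_le N)
  have hne : (peaks N g).Nonempty := ⟨t0, ht0⟩
  obtain ⟨t, ht, hmax⟩ : ∃ t ∈ peaks N g, ∀ i ∈ peaks N g, i ≤ t :=
    ⟨_, max'_mem _ hne, fun i hi => le_max' _ i hi⟩
  have h1 := key t ht
  have h2 : QT g (peaks N g) = Q g (peaks N g) t + g t := by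
    rw [QT_split ht]
    have h3 : (peaks N g).filter (fun i => t < i) = ∅ := by
      rw [filter_eq_empty_iff]
      intro i hi
      have := hmax i hi
      omega
    rw [h3, sum_empty, add_zero]
  have htN := (mem_peaks.mp ht).1
  have h3 := abs_le_var g htN
  have h4 := le_abs_self (g t - g N)
  have h5 := var_add (u := g) (Nat.zero_le t) htN
  rw [h2, h5]
  linarith

theorem main_peaks (h : IsMax N g M) :
    var M 0 N ≤ (N / ((N : ℝ) + 1)) * (2 * QT g (peaks N g) - g 0 - g N) :=
  main_of_tops h (tops_peaks N g) fun t ht => (mem_peaks.mp ht).1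

theorem main_equal_minima (h : IsMax N g M)
    (hdip : ∀ i j k, i < j → j < k → k ≤ N → g j < g i → g j < g k →
      ∃ l, i < l ∧ l < k ∧ g l = 0) :
    var M 0 N ≤ (N / ((N : ℝ) + 1)) * var g 0 N :=
  (main_peaks h).trans (mul_le_mul_of_nonneg_left (peaks_le_var h.nonneg hdip) (c_nonneg N))

end Pool.Agent.Helper37_EM
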